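import Pool.Agent.Lib.Z9f173dB.Base

/-!
# Homology in degree zero over the reduced algebra of an amenable group

`not_ex_of_amenable` : a complex with `H_0 = ℤ` over `ℤ[H]`, `H` amenable, has nonzero `H_0` over
`C_r^*(H)`. Proof with almost invariant unit vectors.
-/

namespace Z9f173dB

noncomputable section

open Z9f173d
open scoped Matrix

namespace AmAux

/-- an element of `Ops` as a continuous linear map -/
def op {H : Type*} (T : Ops H) : L2 H →L[ℂ] L2 H := T

variable {H : Type*} [Group H]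

open scoped Classical in
/-- the indicator function of a finite set -/
def ind (A : Finset H) : L2 H := ∑ x ∈ A, lp.single (E := fun _ : H => ℂ) 2 x (1 : ℂ)

theorem norm_ind (A : Finset H) : ‖ind A‖ ^ 2 = A.card := by
  classical
  have h := lp.norm_sum_single (p := 2) (E := fun _ : H => ℂ) (by norm_num) (fun _ => (1 : ℂ)) A
  have h2 : (2 : ENNReal).toReal = ((2 : ℕ) : ℝ) := by norm_num
  rw [h2] at h
  simp only [Real.rpow_natCast, norm_one, one_pow, Finset.sum_const, nsmul_eq_mul, mul_one] at h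
  unfold ind
  convert h

open scoped Classical in
theorem lam_single (s x : H) :
    op (scLam 1 s) (lp.single (E := fun _ : H => ℂ) 2 x (1 : ℂ)) =
      lp.single (E := fun _ : H => ℂ) 2 (s * x) (1 : ℂ) := by
  ext y
  have h1 : op (scLam 1 s) (lp.single (E := fun _ : H => ℂ) 2 x (1 : ℂ)) y =
      (1 : ℂ) • (lp.single (E := fun _ : H => ℂ) 2 x (1 : ℂ)) (s⁻¹ * y) := rfl
  rw [h1, one_smul, lp.single_apply, lp.single_apply]
  by_cases h : y = s * x
  · subst h
    simp
  · have h' : s⁻¹ * y ≠ x := fun h3 => h (by rw [← h3, mul_inv_cancel_left])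
    simp [h, h']

open scoped Classical in
theorem lam_ind (s : H) (A : Finset H) :
    op (scLam 1 s) (ind A) = ind (A.image fun x => s * x) := by
  unfold ind
  rw [map_sum, Finset.sum_image fun a _ b _ h => mul_left_cancel h]
  exact Finset.sum_congr rfl fun x _ => lam_single s x

open scoped Classical in
theorem ind_sub (A B : Finset H) : ind A - ind B = ind (A \ B) - ind (B \ A) := by
  have h1 : ind A = ind (A ∩ B) + ind (A \ B) := by
    unfold ind
    exact (Finset.sum_inter_add_sum_sdiff A B _).symm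
  have h2 : ind B = ind (B ∩ A) + ind (B \ A) := by
    unfold ind
    exact (Finset.sum_inter_add_sum_sdiff B A _).symm
  rw [h1, h2, Finset.inter_comm B A]
  abel

theorem norm_sub_sq_le (a b : L2 H) : ‖a - b‖ ^ 2 ≤ 2 * ‖a‖ ^ 2 + 2 * ‖b‖ ^ 2 := by
  have h1 : ‖a - b‖ ≤ ‖a‖ + ‖b‖ := norm_sub_le a b
  have h2 : 0 ≤ ‖a - b‖ := norm_nonneg _
  nlinarith [sq_nonneg (‖a‖ - ‖b‖)]

open scoped Classical in
theorem card_le (s : H) (K : Finset H) (ε : ℝ)
    (h1 : (Nat.card {k : H // k ∈ K ∧ s * k ∉ K} : ℝ) ≤ ε * (Nat.card K : ℝ)) :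
    (((K.image fun x => s * x) \ K).card : ℝ) ≤ ε * K.card := by
  have h2 : ((K.image fun x => s * x) \ K) = (K.filter fun k => s * k ∉ K).image fun x => s * x := by
    ext y
    simp only [Finset.mem_sdiff, Finset.mem_image, Finset.mem_filter]
    constructor
    · rintro ⟨⟨x, hx, rfl⟩, hy⟩
      exact ⟨x, ⟨hx, hy⟩, rfl⟩
    · rintro ⟨x, ⟨hx, hy⟩, rfl⟩
      exact ⟨⟨x, hx, rfl⟩, hy⟩
  have h3 : Nat.card {k : H // k ∈ K ∧ s * k ∉ K} = (K.filter fun k => s * k ∉ K).card := by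
    rw [← Nat.card_eq_finsetCard]
    exact Nat.card_congr (Equiv.subtypeEquivRight fun k => by simp [Finset.mem_filter])
  rw [h2, Finset.card_image_of_injective _ (mul_right_injective s), ← h3]
  rwa [Nat.card_eq_finsetCard] at h1

open scoped Classical in
theorem card_le' (s : H) (K : Finset H) (ε : ℝ)
    (h1 : (Nat.card {k : H // k ∈ K ∧ s⁻¹ * k ∉ K} : ℝ) ≤ ε * (Nat.card K : ℝ)) :
    ((K \ (K.image fun x => s * x)).card : ℝ) ≤ ε * K.card := by
  have h2 : (K \ (K.image fun x => s * x)) = K.filter fun k => s⁻¹ * k ∉ K := by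
    ext y
    simp only [Finset.mem_sdiff, Finset.mem_image, Finset.mem_filter]
    constructor
    · rintro ⟨hy, hn⟩
      exact ⟨hy, fun h => hn ⟨s⁻¹ * y, h, mul_inv_cancel_left s y⟩⟩
    · rintro ⟨hy, hn⟩
      refine ⟨hy, ?_⟩
      rintro ⟨x, hx, rfl⟩
      rw [inv_mul_cancel_left] at hn
      exact hn hx
  have h3 : Nat.card {k : H // k ∈ K ∧ s⁻¹ * k ∉ K} = (K.filter fun k => s⁻¹ * k ∉ K).card := by
    rw [← Nat.card_eq_finsetCard]
    exact Nat.card_congr (Equiv.subtypeEquivRight fun k => by simp [Finset.mem_filter])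
  rw [h2, ← h3]
  rwa [Nat.card_eq_finsetCard] at h1

/-- almost invariant unit vectors -/
theorem exists_vec (hA : FoelnerAmenable H) (S : Finset H) (η : ℝ) (hη : 0 < η) :
    ∃ ξ : L2 H, ‖ξ‖ = 1 ∧ ∀ s ∈ S, ‖op (scLam 1 s) ξ - ξ‖ ≤ η := by
  classical
  obtain ⟨K, hK, hKS⟩ := hA (S ∪ S.image fun s => s⁻¹) (η ^ 2 / 4) (by positivity)
  have hcard : (0 : ℝ) < K.card := by exact_mod_cast hK.card_pos
  have hn := norm_ind K
  have hpos : 0 < ‖ind K‖ := by
    rcases (norm_nonneg (ind K)).lt_or_eq with h | h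
    · exact h
    · rw [← h] at hn
      simp at hn
      exact absurd hn.symm (by simpa using hK.ne_empty)
  refine ⟨((‖ind K‖⁻¹ : ℝ) : ℂ) • ind K, ?_, fun s hs => ?_⟩
  · rw [norm_smul, Complex.norm_real, norm_inv, norm_norm, inv_mul_cancel₀ hpos.ne']
  · rw [map_smul, ← smul_sub, norm_smul, Complex.norm_real, norm_inv, norm_norm, lam_ind, ind_sub]
    have h1 := card_le s K _ (hKS s (Finset.mem_union_left _ hs))
    have h2 := card_le' s K _ (hKS s⁻¹ (Finset.mem_union_right _ (Finset.mem_image_of_mem _ hs)))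
    have h3 := norm_sub_sq_le (ind ((K.image fun x => s * x) \ K))
      (ind (K \ (K.image fun x => s * x)))
    rw [norm_ind, norm_ind] at h3
    have h4 : ‖ind ((K.image fun x => s * x) \ K) - ind (K \ (K.image fun x => s * x))‖ ^ 2 ≤
        (η * ‖ind K‖) ^ 2 := by
      rw [mul_pow, hn]
      linarith
    have h5 := (pow_le_pow_iff_left₀ (norm_nonneg _) (by positivity) two_ne_zero).1 h4
    rw [inv_mul_le_iff₀ hpos]
    linarith

theorem op_toCRed_single (g : H) (z : ℤ) (ξ : L2 H) :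
    op (toCRed H (MonoidAlgebra.single g z)).1 ξ = (z : ℂ) • op (scLam 1 g) ξ := by
  have h1 : toCRed H (MonoidAlgebra.single g z) = z • lamC H g :=
    MonoidAlgebra.lift_single (lamC H) g z
  rw [h1]
  have h2 : op ((z • lamC H g : CRed H)).1 = z • op (scLam 1 g) := rfl
  rw [h2]
  have h3 : (z • op (scLam 1 g)) ξ = z • op (scLam 1 g) ξ := rfl
  rw [h3, Int.cast_smul_eq_zsmul]

/-- the group ring acts almost by the augmentation on almost invariant vectors -/
theorem almost (a : MonoidAlgebra ℤ H) : ∃ (C : ℝ) (S : Finset H), 0 ≤ C ∧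
    ∀ (ξ : L2 H) (η : ℝ), (∀ s ∈ S, ‖op (scLam 1 s) ξ - ξ‖ ≤ η) →
      ‖op (toCRed H a).1 ξ - ((eps H a : ℤ) : ℂ) • ξ‖ ≤ C * η := by
  classical
  induction a using MonoidAlgebra.induction_linear with
  | zero =>
    refine ⟨0, ∅, le_rfl, fun ξ η _ => ?_⟩
    have h : op (toCRed H (0 : MonoidAlgebra ℤ H)).1 = 0 := by
      rw [map_zero]
      rfl
    rw [h, map_zero]
    simp
  | add a b ha hb =>
    obtain ⟨C, S, hC, h⟩ := ha
    obtain ⟨C', S', hC', h'⟩ := hb
    refine ⟨C + C', S ∪ S', by positivity, fun ξ η hξ => ?_⟩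
    have h1 := h ξ η fun s hs => hξ s (Finset.mem_union_left _ hs)
    have h2 := h' ξ η fun s hs => hξ s (Finset.mem_union_right _ hs)
    have h3 : op (toCRed H (a + b)).1 ξ - ((eps H (a + b) : ℤ) : ℂ) • ξ =
        (op (toCRed H a).1 ξ - ((eps H a : ℤ) : ℂ) • ξ) +
          (op (toCRed H b).1 ξ - ((eps H b : ℤ) : ℂ) • ξ) := by
      have h4 : op (toCRed H (a + b)).1 ξ = op (toCRed H a).1 ξ + op (toCRed H b).1 ξ := by
        rw [map_add]
        rfl
      rw [h4, map_add, Int.cast_add, add_smul]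
      abel
    rw [h3]
    calc _ ≤ C * η + C' * η := (norm_add_le _ _).trans (add_le_add h1 h2)
      _ = (C + C') * η := by ring
  | single g z =>
    refine ⟨|(z : ℝ)|, {g}, abs_nonneg _, fun ξ η hξ => ?_⟩
    have h1 := hξ g (Finset.mem_singleton_self g)
    have h2 : eps H (MonoidAlgebra.single g z) = z := by
      have h3 : eps H (MonoidAlgebra.single g z) = z • (1 : H →* ℤ) g :=
        MonoidAlgebra.lift_single (1 : H →* ℤ) g z
      rw [h3, MonoidHom.one_apply, smul_eq_mul, mul_one]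
    rw [op_toCRed_single, h2, ← smul_sub, norm_smul]
    have h4 : ‖(z : ℂ)‖ = |(z : ℝ)| := by
      rw [← Complex.ofReal_intCast, Complex.norm_real, Real.norm_eq_abs]
    rw [h4]
    exact mul_le_mul_of_nonneg_left h1 (abs_nonneg _)

theorem swap {A : Type*} [Ring A] {m n : ℕ} (u : Fin m → A) (M : Matrix (Fin m) (Fin n) A)
    (c : Fin n → A) : ∑ j, (∑ i, u i * M i j) * c j = ∑ i, u i * ∑ j, M i j * c j := by
  simp only [Finset.sum_mul, Finset.mul_sum]
  rw [Finset.sum_comm]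
  exact Finset.sum_congr rfl fun i _ => Finset.sum_congr rfl fun j _ => mul_assoc _ _ _

end AmAux

open AmAux

theorem not_ex_of_amenable (H : Type*) [Group H] (X : Cx H) (aug : Fin (X.rank 0) → ℤ)
    (hs : ∃ v : Fin (X.rank 0) → MonoidAlgebra ℤ H, ∑ j, eps H (v j) * aug j = 1)
    (h0 : ∀ v, (∑ j, eps H (v j) * aug j = 0 ↔ ∃ u, u ᵥ* X.d 0 = v))
    (hA : FoelnerAmenable H) : ¬ Ex X (toCRed H) 0 := by
  classical
  intro hex
  obtain ⟨v, hv⟩ := hs
  obtain ⟨u, hu⟩ := hex fun j => toCRed H (v j)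
  -- the elements of the group ring
  set b : MonoidAlgebra ℤ H := ∑ j, v j * (aug j : MonoidAlgebra ℤ H) with hb
  set a : Fin (X.rank 1) → MonoidAlgebra ℤ H :=
    fun i => ∑ j, X.d 0 i j * (aug j : MonoidAlgebra ℤ H) with ha
  have hepsb : eps H b = 1 := by
    rw [hb, map_sum, ← hv]
    exact Finset.sum_congr rfl fun j _ => by rw [map_mul, map_intCast, Int.cast_id]
  have hepsa : ∀ i, eps H (a i) = 0 := by
    intro i
    have h1 := (h0 (fun j => X.d 0 i j)).2 ⟨Pi.single i 1, by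
      rw [Matrix.single_one_vecMul]; rfl⟩
    rw [ha, map_sum, ← h1]
    exact Finset.sum_congr rfl fun j _ => by rw [map_mul, map_intCast, Int.cast_id]
  have hkey : toCRed H b = ∑ i, u i * toCRed H (a i) := by
    have h1 : ∀ j, toCRed H (v j) = ∑ i, u i * toCRed H (X.d 0 i j) := by
      intro j
      exact (congrFun hu j).symm
    have h2 : toCRed H b = ∑ j, (∑ i, u i * toCRed H (X.d 0 i j)) * ((aug j : ℤ) : CRed H) := by
      rw [hb, map_sum]
      refine Finset.sum_congr rfl fun j _ => ?_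
      rw [map_mul, map_intCast, h1]
    have h3 : ∀ i, toCRed H (a i) = ∑ j, toCRed H (X.d 0 i j) * ((aug j : ℤ) : CRed H) := by
      intro i
      rw [ha, map_sum]
      refine Finset.sum_congr rfl fun j _ => ?_
      rw [map_mul, map_intCast]
    have h4 := swap u ((X.d 0).map (toCRed H)) fun j => ((aug j : ℤ) : CRed H)
    rw [h2]
    refine h4.trans (Finset.sum_congr rfl fun i _ => ?_)
    rw [h3]
    rfl
  obtain ⟨Cb, Sb, hCb, hb2⟩ := almost b
  have h2 := fun i => almost (a i)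
  choose C S hC ha2 using h2
  set M : ℝ := Cb + ∑ i, ‖op (u i).1‖ * C i with hM
  have hM0 : 0 ≤ M := by
    have : 0 ≤ ∑ i, ‖op (u i).1‖ * C i :=
      Finset.sum_nonneg fun i _ => mul_nonneg (norm_nonneg _) (hC i)
    linarith
  obtain ⟨ξ, hξ, hξ2⟩ := exists_vec hA (Sb ∪ Finset.univ.biUnion S) (1 / (2 * (M + 1)))
    (by positivity)
  have h3 := hb2 ξ _ fun s hs => hξ2 s (Finset.mem_union_left _ hs)
  have h4 : ∀ i, ‖op (toCRed H (a i)).1 ξ‖ ≤ C i * (1 / (2 * (M + 1))) := by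
    intro i
    have h5 := ha2 i ξ _ fun s hs => hξ2 s (Finset.mem_union_right _
      (Finset.mem_biUnion.2 ⟨i, Finset.mem_univ _, hs⟩))
    rwa [hepsa i, Int.cast_zero, zero_smul, sub_zero] at h5
  have h5 : op (toCRed H b).1 ξ = ∑ i, op (u i).1 (op (toCRed H (a i)).1 ξ) := by
    have h6 : (toCRed H b).1 = ∑ i, (u i).1 * (toCRed H (a i)).1 := by
      rw [hkey]
      exact map_sum (redAlg H).subtype (fun i => u i * toCRed H (a i)) Finset.univ
    have h7 : op (∑ i, (u i).1 * (toCRed H (a i)).1 : Ops H) =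
        ∑ i, (op (u i).1).comp (op (toCRed H (a i)).1) := rfl
    rw [h6, h7]
    simp
  have h6 : ‖op (toCRed H b).1 ξ‖ ≤ (∑ i, ‖op (u i).1‖ * C i) * (1 / (2 * (M + 1))) := by
    rw [h5, Finset.sum_mul]
    refine (norm_sum_le _ _).trans (Finset.sum_le_sum fun i _ => ?_)
    calc ‖op (u i).1 (op (toCRed H (a i)).1 ξ)‖
        ≤ ‖op (u i).1‖ * ‖op (toCRed H (a i)).1 ξ‖ := ContinuousLinearMap.le_opNorm _ _
      _ ≤ ‖op (u i).1‖ * (C i * (1 / (2 * (M + 1)))) :=
          mul_le_mul_of_nonneg_left (h4 i) (norm_nonneg _)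
      _ = ‖op (u i).1‖ * C i * (1 / (2 * (M + 1))) := by ring
  rw [hepsb, Int.cast_one, one_smul] at h3
  have h7 : (1 : ℝ) ≤ M * (1 / (2 * (M + 1))) := by
    have h8 : ‖ξ‖ ≤ ‖op (toCRed H b).1 ξ‖ + ‖op (toCRed H b).1 ξ - ξ‖ := by
      have h9 := norm_sub_le (op (toCRed H b).1 ξ) (op (toCRed H b).1 ξ - ξ)
      rwa [sub_sub_cancel] at h9
    rw [hξ] at h8
    calc (1 : ℝ) ≤ (∑ i, ‖op (u i).1‖ * C i) * (1 / (2 * (M + 1))) + Cb * (1 / (2 * (M + 1))) :=
          h8.trans (add_le_add h6 h3)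
      _ = M * (1 / (2 * (M + 1))) := by rw [hM]; ring
  have h8 : M * (1 / (2 * (M + 1))) < 1 := by
    rw [mul_one_div, div_lt_one (by positivity)]
    linarith
  linarith

end

end Z9f173dB
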