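import Pool.Agent.Lib.Z9f173dB.Base

/-!
# The involution of the group ring
-/

namespace Z9f173dB

noncomputable section

open Z9f173d
open scoped Matrix

variable {G : Type*} [Group G]

theorem bar_single (w : G →* ℤˣ) (g : G) (a : ℤ) :
    (bar w (MonoidAlgebra.single g a)).unop =
      MonoidAlgebra.single g⁻¹ (a * ((w g : ℤˣ) : ℤ)) := by
  have h : bar w (MonoidAlgebra.single g a) = a • barHom w g :=
    MonoidAlgebra.lift_single (barHom w) g a
  rw [h, MulOpposite.unop_smul]
  show a • MonoidAlgebra.single g⁻¹ ((w g : ℤˣ) : ℤ) = _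
  rw [MonoidAlgebra.smul_single, smul_eq_mul]

theorem bar_add (w : G →* ℤˣ) (x y : MonoidAlgebra ℤ G) :
    (bar w (x + y)).unop = (bar w x).unop + (bar w y).unop := by
  rw [map_add, MulOpposite.unop_add]

theorem bar_mul (w : G →* ℤˣ) (x y : MonoidAlgebra ℤ G) :
    (bar w (x * y)).unop = (bar w y).unop * (bar w x).unop := by
  rw [map_mul, MulOpposite.unop_mul]

theorem bar_bar (w : G →* ℤˣ) (x : MonoidAlgebra ℤ G) :
    (bar w (bar w x).unop).unop = x := by
  induction x using MonoidAlgebra.induction_linear with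
  | zero => rw [map_zero, MulOpposite.unop_zero, map_zero, MulOpposite.unop_zero]
  | add x y hx hy => rw [bar_add, bar_add, hx, hy]
  | single g a =>
      rw [bar_single, bar_single, inv_inv, map_inv, mul_assoc, ← Units.val_mul, mul_inv_cancel,
        Units.val_one, mul_one]

theorem bar_sum (w : G →* ℤˣ) {n : ℕ} (f : Fin n → MonoidAlgebra ℤ G) :
    (bar w (∑ i, f i)).unop = ∑ i, (bar w (f i)).unop := by
  rw [map_sum, Finset.unop_sum]

/-- rows and columns -/
theorem vecMul_adj (w : G →* ℤˣ) {m n : ℕ} (M : Matrix (Fin m) (Fin n) (MonoidAlgebra ℤ G))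
    (v : Fin n → MonoidAlgebra ℤ G) :
    v ᵥ* adj w M = fun a => (bar w ((M *ᵥ fun b => (bar w (v b)).unop) a)).unop := by
  funext a
  have h1 : (M *ᵥ fun b => (bar w (v b)).unop) a = ∑ b, M a b * (bar w (v b)).unop := rfl
  have h2 : (v ᵥ* adj w M) a = ∑ b, v b * (bar w (M a b)).unop := rfl
  rw [h1, h2, bar_sum]
  refine Finset.sum_congr rfl fun b _ => ?_
  rw [bar_mul, bar_bar]

end

end Z9f173dB
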