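import Pool.Agent.Lib.Z9f173dB.Defs
import Pool.Agent.Lib.Z9f173d.Contr

/-!
# Exactness of the complexes over a ring
-/

namespace Z9f173dB

noncomputable section

open Z9f173d
open scoped Matrix

variable {G : Type*} [Group G] {A : Type*} [Ring A]

/-- `H_i(A ⊗ X) = 0` in terms of matrices -/
def Ex (X : Cx G) (θ : MonoidAlgebra ℤ G →+* A) : ℕ → Prop
  | 0 => ∀ v : Fin (X.rank 0) → A, ∃ u, u ᵥ* (X.d 0).map θ = v
  | (i + 1) => ∀ v : Fin (X.rank (i + 1)) → A, v ᵥ* (X.d i).map θ = 0 →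
      ∃ u, u ᵥ* (X.d (i + 1)).map θ = v

/-- `H^j(X ; A) = 0` for the dual complex, in terms of matrices -/
def CoEx (w : G →* ℤˣ) (X : Cx G) (θ : MonoidAlgebra ℤ G →+* A) : ℕ → Prop
  | 0 => ∀ v : Fin (X.rank 0) → A, v ᵥ* (adj w (X.d 0)).map θ = 0 → v = 0
  | (j + 1) => ∀ v : Fin (X.rank (j + 1)) → A, v ᵥ* (adj w (X.d (j + 1))).map θ = 0 →
      ∃ u, u ᵥ* (adj w (X.d j)).map θ = v

theorem not_nontrivial_homologyWith (X : Cx G) (θ : MonoidAlgebra ℤ G →+* A) (i : ℕ) :
    ¬ Nontrivial (X.homologyWith A θ i) ↔ Ex X θ i := by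
  rw [FinRes.not_nontrivial_iff]
  cases i with
  | zero =>
      constructor
      · intro h v
        exact h (x := v) trivial
      · intro h v _
        exact h v
  | succ i =>
      constructor
      · intro h v hv
        exact h (x := v) hv
      · intro h v hv
        exact h v hv

theorem not_nontrivial_finRes (C : FinRes G) (h : ∀ i, C.d (i + 1) * C.d i = 0)
    (θ : MonoidAlgebra ℤ G →+* A) (i : ℕ) :
    ¬ Nontrivial (C.homologyWith A θ i) ↔ Ex (toCx C h) θ i := by
  rw [FinRes.not_nontrivial_iff]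
  cases i with
  | zero =>
      constructor
      · intro h v
        exact h (x := v) trivial
      · intro h v _
        exact h v
  | succ i =>
      constructor
      · intro h v hv
        exact h (x := v) hv
      · intro h v hv
        exact h v hv

theorem map_mul_map (θ : MonoidAlgebra ℤ G →+* A) {l m n : ℕ}
    (M : Matrix (Fin l) (Fin m) (MonoidAlgebra ℤ G)) (M' : Matrix (Fin m) (Fin n) (MonoidAlgebra ℤ G)) :
    M.map θ * M'.map θ = (M * M').map θ := (Matrix.map_mul).symm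

theorem map_one' (θ : MonoidAlgebra ℤ G →+* A) {n : ℕ} :
    ((1 : Matrix (Fin n) (Fin n) (MonoidAlgebra ℤ G)).map θ) = 1 :=
  Matrix.map_one θ (map_zero θ) (map_one θ)

theorem map_zero' (θ : MonoidAlgebra ℤ G →+* A) {m n : ℕ} :
    ((0 : Matrix (Fin m) (Fin n) (MonoidAlgebra ℤ G)).map θ) = 0 :=
  Matrix.map_zero θ (map_zero θ)

theorem map_add' (θ : MonoidAlgebra ℤ G →+* A) {m n : ℕ}
    (M M' : Matrix (Fin m) (Fin n) (MonoidAlgebra ℤ G)) :
    (M + M').map θ = M.map θ + M'.map θ := Matrix.map_add θ (map_add θ) M M'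

end

end Z9f173dB
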