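import Pool.Agent.Lib.Z9f173dB.Ind
import Pool.Agent.Lib.Z9f173d.Ce

/-!
# Exactness of a complex from exactness of the induced complex

* `ex_of_ind_int` : over `ℤ[G]`, degree by degree;
* `exists_contr`, `exists_contr_step`, `ex_of_ind_red` : over the reduced algebras, from exactness in all degrees.
-/

namespace Z9f173dB

noncomputable section

open Z9f173d
open scoped Matrix

variable {G : Type*} [Group G]

/-! ## The integral group ring -/

open scoped Classical in
/-- restriction of the support to `K` -/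
def resK (K : Subgroup G) : MonoidAlgebra ℤ G →+ MonoidAlgebra ℤ K :=
  (MonoidAlgebra.coeffAddEquiv.symm.toAddMonoidHom).comp
    ((Finsupp.liftAddHom fun g : G =>
      if h : g ∈ K then Finsupp.singleAddHom (⟨g, h⟩ : K) else 0).comp
      MonoidAlgebra.coeffAddEquiv.toAddMonoidHom)

theorem resK_single_mem (K : Subgroup G) (g : G) (h : g ∈ K) (z : ℤ) :
    resK K (MonoidAlgebra.single g z) = MonoidAlgebra.single (⟨g, h⟩ : K) z := by
  classical
  apply MonoidAlgebra.coeff_injective
  show Finsupp.liftAddHom (fun g : G =>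
      if h : g ∈ K then Finsupp.singleAddHom (⟨g, h⟩ : K) else 0) (Finsupp.single g z) = _
  rw [Finsupp.liftAddHom_apply_single, dif_pos h]
  rfl

theorem resK_single_notMem (K : Subgroup G) (g : G) (h : g ∉ K) (z : ℤ) :
    resK K (MonoidAlgebra.single g z) = 0 := by
  classical
  apply MonoidAlgebra.coeff_injective
  show Finsupp.liftAddHom (fun g : G =>
      if h : g ∈ K then Finsupp.singleAddHom (⟨g, h⟩ : K) else 0) (Finsupp.single g z) = _
  rw [Finsupp.liftAddHom_apply_single, dif_neg h]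
  rfl

theorem inclK_single (K : Subgroup G) (k : K) (z : ℤ) :
    inclK K (MonoidAlgebra.single k z) = MonoidAlgebra.single (k : G) z := by
  simp [inclK]

theorem resK_inclK (K : Subgroup G) (a : MonoidAlgebra ℤ K) : resK K (inclK K a) = a := by
  induction a using MonoidAlgebra.induction_linear with
  | zero => rw [map_zero, map_zero]
  | add x y hx hy => rw [map_add, map_add, hx, hy]
  | single k z => rw [inclK_single, resK_single_mem K k k.2]

theorem resK_mul (K : Subgroup G) (x : MonoidAlgebra ℤ G) (a : MonoidAlgebra ℤ K) :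
    resK K (x * inclK K a) = resK K x * a := by
  induction a using MonoidAlgebra.induction_linear with
  | zero => rw [map_zero, mul_zero, mul_zero, map_zero]
  | add a b ha hb => rw [map_add, mul_add, map_add, ha, hb, mul_add]
  | single k z =>
    induction x using MonoidAlgebra.induction_linear with
    | zero => rw [zero_mul, map_zero, zero_mul]
    | add x y hx hy => rw [add_mul, map_add, hx, hy, map_add, add_mul]
    | single g y =>
      rw [inclK_single, MonoidAlgebra.single_mul_single]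
      by_cases h : g ∈ K
      · rw [resK_single_mem K _ (K.mul_mem h k.2), resK_single_mem K g h,
          MonoidAlgebra.single_mul_single]
        rfl
      · rw [resK_single_notMem K g h, zero_mul, resK_single_notMem]
        intro h2
        apply h
        have := K.mul_mem h2 (K.inv_mem k.2)
        rwa [mul_inv_cancel_right] at this

theorem resK_vecMul (K : Subgroup G) {m n : ℕ} (u : Fin m → MonoidAlgebra ℤ G)
    (M : Matrix (Fin m) (Fin n) (MonoidAlgebra ℤ K)) (j : Fin n) :
    resK K ((u ᵥ* M.map (inclK K)) j) = ((fun i => resK K (u i)) ᵥ* M) j := by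
  show resK K (∑ i, u i * inclK K (M i j)) = ∑ i, resK K (u i) * M i j
  rw [map_sum]
  exact Finset.sum_congr rfl fun i _ => resK_mul K _ _

theorem inclK_vecMul (K : Subgroup G) {m n : ℕ} (u : Fin m → MonoidAlgebra ℤ K)
    (M : Matrix (Fin m) (Fin n) (MonoidAlgebra ℤ K)) (j : Fin n) :
    ((fun i => inclK K (u i)) ᵥ* M.map (inclK K)) j = inclK K ((u ᵥ* M) j) := by
  show ∑ i, inclK K (u i) * inclK K (M i j) = inclK K (∑ i, u i * M i j)
  rw [map_sum]
  exact Finset.sum_congr rfl fun i _ => (map_mul _ _ _).symm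

theorem map_id_eq {H : Type*} [Group H] {m n : ℕ} (M : Matrix (Fin m) (Fin n) (MonoidAlgebra ℤ H)) :
    M.map (RingHom.id (MonoidAlgebra ℤ H)) = M := by
  ext1 i j
  rfl

theorem solve_of_ind (K : Subgroup G) {m n : ℕ} (M : Matrix (Fin m) (Fin n) (MonoidAlgebra ℤ K))
    (v : Fin n → MonoidAlgebra ℤ K)
    (h : ∃ u, u ᵥ* M.map (inclK K) = fun j => inclK K (v j)) : ∃ u, u ᵥ* M = v := by
  obtain ⟨u, hu⟩ := h
  refine ⟨fun i => resK K (u i), ?_⟩
  funext j
  rw [← resK_vecMul, hu, resK_inclK]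

theorem ex_of_ind_int (K : Subgroup G) (N : Cx K) (q : ℕ)
    (h : Ex (Ind K N) (RingHom.id _) q) : Ex N (RingHom.id _) q := by
  cases q with
  | zero =>
    intro v
    rw [map_id_eq]
    refine solve_of_ind K (N.d 0) v ?_
    have h1 := h fun j => inclK K (v j)
    rw [map_id_eq] at h1
    exact h1
  | succ q =>
    intro v hv
    rw [map_id_eq] at hv ⊢
    refine solve_of_ind K (N.d (q + 1)) v ?_
    have hs : ∀ v : Fin (N.rank (q + 1)) → MonoidAlgebra ℤ G,
        v ᵥ* ((N.d q).map (inclK K)).map (RingHom.id (MonoidAlgebra ℤ G)) = 0 →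
        ∃ u, u ᵥ* ((N.d (q + 1)).map (inclK K)).map (RingHom.id (MonoidAlgebra ℤ G)) = v := h
    rw [map_id_eq, map_id_eq] at hs
    refine hs (fun j => inclK K (v j)) ?_
    funext j
    rw [inclK_vecMul, hv, Pi.zero_apply, map_zero, Pi.zero_apply]

/-! ## Contractions -/

section contr

variable {A : Type*} [Ring A]

theorem rows {m n : ℕ} (M : Matrix (Fin m) (Fin n) A) {l : ℕ} (R : Matrix (Fin l) (Fin n) A)
    (h : ∀ i, ∃ u, u ᵥ* M = R i) : ∃ S : Matrix (Fin l) (Fin m) A, S * M = R := by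
  choose S hS using h
  refine ⟨S, ?_⟩
  ext1 i j
  exact congrFun (hS i) j

theorem solve_zero {m n : ℕ} (S : Matrix (Fin m) (Fin n) A) (D : Matrix (Fin n) (Fin m) A)
    (h : S * D = 1) (v : Fin m → A) : (v ᵥ* S) ᵥ* D = v := by
  rw [Matrix.vecMul_vecMul, h, Matrix.vecMul_one]

theorem solve_succ {l m n : ℕ} (D : Matrix (Fin m) (Fin l) A) (S : Matrix (Fin l) (Fin m) A)
    (S' : Matrix (Fin m) (Fin n) A) (D' : Matrix (Fin n) (Fin m) A) (h : D * S + S' * D' = 1)
    (v : Fin m → A) (hv : v ᵥ* D = 0) : (v ᵥ* S') ᵥ* D' = v := by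
  have h3 : v ᵥ* (D * S + S' * D') = v := by rw [h, Matrix.vecMul_one]
  rw [Matrix.vecMul_add, ← Matrix.vecMul_vecMul, ← Matrix.vecMul_vecMul, hv, Matrix.zero_vecMul,
    zero_add] at h3
  exact h3

variable (r : ℕ → ℕ) (D : ∀ i, Matrix (Fin (r (i + 1))) (Fin (r i)) A)

theorem exists_contr_step (hd : ∀ i, D (i + 1) * D i = 0) (q : ℕ)
    (h : ∀ v, v ᵥ* D q = 0 → ∃ u, u ᵥ* D (q + 1) = v)
    (S : Matrix (Fin (r q)) (Fin (r (q + 1))) A) (hS : D q * (S * D q) = D q) :
    ∃ S' : Matrix (Fin (r (q + 1))) (Fin (r (q + 2))) A,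
      D q * S + S' * D (q + 1) = 1 ∧ D (q + 1) * (S' * D (q + 1)) = D (q + 1) := by
  obtain ⟨S', hS'⟩ := rows (D (q + 1)) (1 - D q * S) (fun i => h _ (by
    have h1 : (1 - D q * S) * D q = 0 := by
      rw [Matrix.sub_mul, Matrix.one_mul, Matrix.mul_assoc, hS, sub_self]
    funext j
    exact congrFun (congrFun h1 i) j))
  refine ⟨S', by rw [hS']; abel, ?_⟩
  rw [hS', Matrix.mul_sub, Matrix.mul_one, ← Matrix.mul_assoc, hd, Matrix.zero_mul, sub_zero]

theorem exists_contr (hd : ∀ i, D (i + 1) * D i = 0) (h0 : ∀ v, ∃ u, u ᵥ* D 0 = v)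
    (h : ∀ q v, v ᵥ* D q = 0 → ∃ u, u ᵥ* D (q + 1) = v) (q : ℕ) :
    ∃ S : Matrix (Fin (r q)) (Fin (r (q + 1))) A, D q * (S * D q) = D q := by
  induction q with
  | zero =>
    obtain ⟨S, hS⟩ := rows (D 0) (1 : Matrix (Fin (r 0)) (Fin (r 0)) A) fun i => h0 _
    exact ⟨S, by rw [hS, Matrix.mul_one]⟩
  | succ q ih =>
    obtain ⟨S, hS⟩ := ih
    obtain ⟨S', _, h2⟩ := exists_contr_step r D hd q (h q) S hS
    exact ⟨S', h2⟩

end contr

/-! ## The reduced algebras -/

theorem ex_of_ind_red (K : Subgroup G) (N : Cx K) (h : ∀ q, Ex (Ind K N) (toCRed G) q) (q : ℕ) :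
    Ex N (toCRed K) q := by
  have h0 : ∀ v : Fin (N.rank 0) → CRed G,
      ∃ u, u ᵥ* (N.d 0).map ((toCRed G).comp (incl K)) = v := h 0
  have hs : ∀ (q : ℕ) (v : Fin (N.rank (q + 1)) → CRed G),
      v ᵥ* (N.d q).map ((toCRed G).comp (incl K)) = 0 →
        ∃ u, u ᵥ* (N.d (q + 1)).map ((toCRed G).comp (incl K)) = v := fun q => h (q + 1)
  have hd : ∀ i, (N.d (i + 1)).map ((toCRed G).comp (incl K)) *
      (N.d i).map ((toCRed G).comp (incl K)) = 0 := by
    intro i
    rw [map_mul_map, N.d_d, map_zero']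
  cases q with
  | zero =>
    intro v
    obtain ⟨S, hS⟩ := rows ((N.d 0).map ((toCRed G).comp (incl K)))
      (1 : Matrix (Fin (N.rank 0)) (Fin (N.rank 0)) (CRed G)) fun i => h0 _
    have h1 : S.map (condExp K) * (N.d 0).map (toCRed K) = 1 := by
      rw [← condExp_mul_map, ← condExp_map_one K, hS]
    exact ⟨v ᵥ* S.map (condExp K), solve_zero _ _ h1 v⟩
  | succ q =>
    intro v hv
    obtain ⟨S, hS⟩ := exists_contr N.rank (fun i => (N.d i).map ((toCRed G).comp (incl K)))
      hd h0 hs q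
    obtain ⟨S', h1, _⟩ := exists_contr_step N.rank
      (fun i => (N.d i).map ((toCRed G).comp (incl K))) hd q (hs q) S hS
    have h2 := contr_map K (N.d q) (N.d (q + 1)) S S' h1
    exact ⟨v ᵥ* S'.map (condExp K), solve_succ _ _ _ _ h2 v hv⟩

end

end Z9f173dB
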