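import Pool.Agent.Lib.Z9f173dB.Int
import Pool.Agent.Lib.Z9f173d.Final2

/-!
# The third cohomology group with group ring coefficients
-/

namespace Z9f173dB

noncomputable section

open Z9f173d
open scoped Matrix

variable {H : Type*} [Group H]

/-- the coordinatewise involution -/
def barV (w : H →* ℤˣ) {n : ℕ} (f : Fin n → MonoidAlgebra ℤ H) : Fin n → MonoidAlgebra ℤ H :=
  fun b => (bar w (f b)).unop

theorem barV_barV (w : H →* ℤˣ) {n : ℕ} (f : Fin n → MonoidAlgebra ℤ H) :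
    barV w (barV w f) = f := funext fun b => bar_bar w (f b)

theorem barV_add (w : H →* ℤˣ) {n : ℕ} (f g : Fin n → MonoidAlgebra ℤ H) :
    barV w (f + g) = barV w f + barV w g := funext fun b => bar_add w (f b) (g b)

/-- the augmentation of the row `f` -/
def augR (R : FinRes H) (f : Fin (R.rank 0) → MonoidAlgebra ℤ H) : ℤ :=
  ∑ j, eps H (f j) * R.aug j

theorem augR_add (R : FinRes H) (f g : Fin (R.rank 0) → MonoidAlgebra ℤ H) :
    augR R (f + g) = augR R f + augR R g := by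
  unfold augR
  rw [← Finset.sum_add_distrib]
  refine Finset.sum_congr rfl fun j _ => ?_
  rw [Pi.add_apply, map_add, add_mul]

/-- evaluation of a cochain of degree `3` on the fundamental class -/
def evalF (R : FinRes H) (w : H →* ℤˣ)
    (φ3 : Matrix (Fin (R.rank 3)) (Fin (R.rank 0)) (MonoidAlgebra ℤ H)) :
    (Fin (R.rank 3) → MonoidAlgebra ℤ H) →+ ℤ where
  toFun f := augR R (barV w f ᵥ* φ3)
  map_zero' := by
    have h0 : barV w (0 : Fin (R.rank 3) → MonoidAlgebra ℤ H) = 0 := by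
      funext b
      show (bar w 0).unop = 0
      rw [map_zero, MulOpposite.unop_zero]
    rw [h0, Matrix.zero_vecMul]
    unfold augR
    simp
  map_add' f g := by
    rw [barV_add, Matrix.add_vecMul, augR_add]

section

variable (R : FinRes H) (w : H →* ℤˣ)
  {φ3 : Matrix (Fin (R.rank 3)) (Fin (R.rank 0)) (MonoidAlgebra ℤ H)}
  {ψ3 : Matrix (Fin (R.rank 0)) (Fin (R.rank 3)) (MonoidAlgebra ℤ H)}
  {φ2 : Matrix (Fin (R.rank 2)) (Fin (R.rank 1)) (MonoidAlgebra ℤ H)}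
  {ψ2 : Matrix (Fin (R.rank 1)) (Fin (R.rank 2)) (MonoidAlgebra ℤ H)}
  {k2 : Matrix (Fin (R.rank 3)) (Fin (R.rank 2)) (MonoidAlgebra ℤ H)}
  {k3 : Matrix (Fin (R.rank 4)) (Fin (R.rank 3)) (MonoidAlgebra ℤ H)}
  {l0 : Matrix (Fin (R.rank 0)) (Fin (R.rank 1)) (MonoidAlgebra ℤ H)}
  (r1 : adj w (R.d 2) * φ3 = φ2 * R.d 0) (r2 : R.d 0 * ψ3 = ψ2 * adj w (R.d 2))
  (r3 : φ3 * ψ3 = 1 + adj w (R.d 3) * k3 + k2 * adj w (R.d 2))
  (r4 : ψ3 * φ3 = 1 + l0 * R.d 0)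

include r1 r2 r3 in
theorem evalF_eq_zero (h4 : R.rank 4 = 0) (f : Fin (R.rank 3) → MonoidAlgebra ℤ H) :
    evalF R w φ3 f = 0 ↔ ∃ c, R.d 2 *ᵥ c = f := by
  have e1 : evalF R w φ3 f = 0 ↔ ∃ u, u ᵥ* R.d 0 = barV w f ᵥ* φ3 :=
    R.exact_zero _
  have e2 : (∃ u, u ᵥ* R.d 0 = barV w f ᵥ* φ3) ↔
      ∃ c, c ᵥ* adj w (R.d 2) = barV w f := by
    constructor
    · rintro ⟨u, hu⟩
      have a1 : barV w f ᵥ* φ3 ᵥ* ψ3 = barV w f + barV w f ᵥ* k2 ᵥ* adj w (R.d 2) := by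
        have b1 : barV w f ᵥ* adj w (R.d 3) = 0 := by
          funext i
          exact absurd (h4 ▸ i.pos) (lt_irrefl 0)
        rw [Matrix.vecMul_vecMul, r3, Matrix.vecMul_add, Matrix.vecMul_add, Matrix.vecMul_one,
          ← Matrix.vecMul_vecMul, b1, Matrix.zero_vecMul, add_zero, ← Matrix.vecMul_vecMul]
      have a2 : u ᵥ* R.d 0 ᵥ* ψ3 = u ᵥ* ψ2 ᵥ* adj w (R.d 2) := by
        rw [Matrix.vecMul_vecMul, r2, ← Matrix.vecMul_vecMul]
      rw [← hu, a2] at a1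
      refine ⟨u ᵥ* ψ2 - barV w f ᵥ* k2, ?_⟩
      rw [Matrix.sub_vecMul, a1, add_sub_cancel_right]
    · rintro ⟨c, hc⟩
      refine ⟨c ᵥ* φ2, ?_⟩
      rw [Matrix.vecMul_vecMul, ← r1, ← hc, ← Matrix.vecMul_vecMul]
  have e3 : (∃ c, c ᵥ* adj w (R.d 2) = barV w f) ↔ ∃ c, R.d 2 *ᵥ c = f := by
    constructor
    · rintro ⟨c, hc⟩
      refine ⟨barV w c, ?_⟩
      rw [vecMul_adj] at hc
      funext a
      have h1 := congrFun hc a
      have h2 : (bar w ((R.d 2 *ᵥ barV w c) a)).unop = (bar w (f a)).unop := h1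
      have h3 := congrArg (fun z => (bar w z).unop) h2
      simp only [bar_bar] at h3
      exact h3
    · rintro ⟨c, hc⟩
      refine ⟨barV w c, ?_⟩
      rw [vecMul_adj]
      funext a
      have h1 : (fun b => (bar w (barV w c b)).unop) = c := funext fun b => bar_bar w (c b)
      show (bar w ((R.d 2 *ᵥ fun b => (bar w (barV w c b)).unop) a)).unop = (bar w (f a)).unop
      rw [h1, hc]
  exact e1.trans (e2.trans e3)

include r4 in
theorem evalF_surj : Function.Surjective (evalF R w φ3) := by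
  obtain ⟨v, hv⟩ := R.aug_surj
  have h1 : evalF R w φ3 (barV w (v ᵥ* ψ3)) = 1 := by
    show augR R (barV w (barV w (v ᵥ* ψ3)) ᵥ* φ3) = 1
    rw [barV_barV]
    have b4 : v ᵥ* ψ3 ᵥ* φ3 = v + v ᵥ* l0 ᵥ* R.d 0 := by
      rw [Matrix.vecMul_vecMul, r4, Matrix.vecMul_add, Matrix.vecMul_one, ← Matrix.vecMul_vecMul]
    rw [b4, augR_add]
    have b7 : augR R (v ᵥ* l0 ᵥ* R.d 0) = 0 := (R.exact_zero _).2 ⟨_, rfl⟩
    rw [b7, add_zero]
    exact hv
  intro z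
  refine ⟨z • barV w (v ᵥ* ψ3), ?_⟩
  rw [map_zsmul, h1, smul_eq_mul, mul_one]

include r1 r2 r3 r4 in
theorem coh3_aux (h4 : R.rank 4 = 0) : Nonempty (R.cohomology H 3 ≃+ ℤ) := by
  let L : (R.cobd H 3).ker →+ ℤ := (evalF R w φ3).comp (AddSubgroup.subtype _)
  have hker : L.ker = (R.coboundaries H 3).addSubgroupOf (R.cobd H 3).ker := by
    ext f
    rw [AddMonoidHom.mem_ker, AddSubgroup.mem_addSubgroupOf]
    show evalF R w φ3 f.1 = 0 ↔ f.1 ∈ (R.cobd H 2).range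
    rw [evalF_eq_zero R w r1 r2 r3 h4, AddMonoidHom.mem_range]
    constructor
    · rintro ⟨c, hc⟩
      exact ⟨c, by rw [cobd_self, hc]⟩
    · rintro ⟨c, hc⟩
      exact ⟨c, by rw [← cobd_self, hc]⟩
  have hsurj : Function.Surjective L := by
    intro z
    obtain ⟨f, hf⟩ := evalF_surj R w r4 z
    have hf4 : f ∈ (R.cobd H 3).ker := by
      rw [AddMonoidHom.mem_ker]
      funext i
      exact absurd (h4 ▸ i.pos) (lt_irrefl 0)
    exact ⟨⟨f, hf4⟩, hf⟩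
  exact ⟨(QuotientAddGroup.quotientAddEquivOfEq hker.symm).trans
    (QuotientAddGroup.quotientKerEquivOfSurjective L hsurj)⟩

end

/-- `H^3(H; ℤ[H]) ≅ ℤ` for a group with a resolution of length `3` satisfying duality -/
theorem coh3 (R : FinRes H) (hd : ∀ i, R.d (i + 1) * R.d i = 0) (w : H →* ℤˣ)
    (D : Duality w 3 (toCx R hd) (toCx R hd)) (h4 : R.rank 4 = 0) :
    Nonempty (R.cohomology H 3 ≃+ ℤ) :=
  coh3_aux R w (D.φ_comm 2 0 rfl rfl) (D.ψ_comm 2 0 rfl rfl) (D.hX 2 0 rfl) (D.hY0 rfl) h4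

end

end Z9f173dB
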