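import Pool.Agent.Lib.Z9f173dB.Base

/-!
# Contractions, and exactness of the dual complex
-/

namespace Z9f173dB

noncomputable section

open Z9f173d
open scoped Matrix

variable {G : Type*} [Group G] {A : Type*} [Ring A]

theorem exists_right (X : Cx G) (θ : MonoidAlgebra ℤ G →+* A) (m i : ℕ)
    (Y : Matrix (Fin m) (Fin (X.rank i)) A) (h : ∀ a, ∃ u, u ᵥ* (X.d i).map θ = Y a) :
    ∃ S : Matrix (Fin m) (Fin (X.rank (i + 1))) A, S * (X.d i).map θ = Y := by
  choose S hS using h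
  refine ⟨fun a => S a, ?_⟩
  ext a b
  have := congrFun (hS a) b
  rw [← this]
  rfl

/-- an exact complex of free modules, bounded below, is contractible -/
theorem contraction (X : Cx G) (θ : MonoidAlgebra ℤ G →+* A) (h : ∀ i, Ex X θ i) :
    ∃ S : ∀ i, Matrix (Fin (X.rank i)) (Fin (X.rank (i + 1))) A,
      S 0 * (X.d 0).map θ = 1 ∧
      ∀ i, (X.d i).map θ * S i + S (i + 1) * (X.d (i + 1)).map θ = 1 := by
  obtain ⟨S0, hS0⟩ := exists_right X θ (X.rank 0) 0 1 (fun a => h 0 _)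
  have hd : ∀ i, (X.d (i + 1)).map θ * (X.d i).map θ = 0 := fun i => by
    rw [map_mul_map, X.d_d, map_zero']
  have step : ∀ i, ∀ S : Matrix (Fin (X.rank i)) (Fin (X.rank (i + 1))) A,
      (1 - (X.d i).map θ * S) * (X.d i).map θ = 0 →
      ∃ S' : Matrix (Fin (X.rank (i + 1))) (Fin (X.rank (i + 1 + 1))) A,
        S' * (X.d (i + 1)).map θ = 1 - (X.d i).map θ * S ∧
        (1 - (X.d (i + 1)).map θ * S') * (X.d (i + 1)).map θ = 0 := by
    intro i S hS
    obtain ⟨S', hS'⟩ := exists_right X θ _ (i + 1) (1 - (X.d i).map θ * S)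
      (fun a => h (i + 1) _ (congrFun hS a))
    refine ⟨S', hS', ?_⟩
    rw [Matrix.sub_mul, Matrix.one_mul, Matrix.mul_assoc, hS', Matrix.mul_sub, Matrix.mul_one,
      ← Matrix.mul_assoc, hd, Matrix.zero_mul, sub_zero, sub_self]
  have h0 : (1 - (X.d 0).map θ * S0) * (X.d 0).map θ = 0 := by
    rw [Matrix.sub_mul, Matrix.one_mul, Matrix.mul_assoc, hS0, Matrix.mul_one, sub_self]
  choose f hf hf' using step
  let T : ∀ i, {S : Matrix (Fin (X.rank i)) (Fin (X.rank (i + 1))) A //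
      (1 - (X.d i).map θ * S) * (X.d i).map θ = 0} := fun i =>
    Nat.rec ⟨S0, h0⟩ (fun i S => ⟨f i S.1 S.2, hf' i S.1 S.2⟩) i
  refine ⟨fun i => (T i).1, hS0, fun i => ?_⟩
  have h1 : (T (i + 1)).1 * (X.d (i + 1)).map θ = 1 - (X.d i).map θ * (T i).1 :=
    hf i (T i).1 (T i).2
  rw [h1]
  abel

section tr

variable (α : A →+* Aᵐᵒᵖ)

/-- the transposed matrix with the antiautomorphism applied to the entries -/
def tr {m n : ℕ} (M : Matrix (Fin m) (Fin n) A) : Matrix (Fin n) (Fin m) A :=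
  fun j i => (α (M i j)).unop

theorem tr_mul {l m n : ℕ} (M : Matrix (Fin l) (Fin m) A) (M' : Matrix (Fin m) (Fin n) A) :
    tr α (M * M') = tr α M' * tr α M := by
  ext i j
  show (α ((M * M') j i)).unop = _
  rw [Matrix.mul_apply, Matrix.mul_apply, map_sum, Finset.unop_sum]
  refine Finset.sum_congr rfl fun k _ => ?_
  rw [map_mul, MulOpposite.unop_mul]
  rfl

theorem tr_add {m n : ℕ} (M M' : Matrix (Fin m) (Fin n) A) :
    tr α (M + M') = tr α M + tr α M' := by
  ext i j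
  show (α (M j i + M' j i)).unop = _
  rw [map_add, MulOpposite.unop_add]
  rfl

theorem tr_one {n : ℕ} : tr α (1 : Matrix (Fin n) (Fin n) A) = 1 := by
  ext i j
  show (α ((1 : Matrix (Fin n) (Fin n) A) j i)).unop = _
  by_cases h : j = i
  · subst h
    rw [Matrix.one_apply_eq, map_one, MulOpposite.unop_one]
  · rw [Matrix.one_apply_ne h, Matrix.one_apply_ne (fun h' => h h'.symm), map_zero,
      MulOpposite.unop_zero]

theorem tr_map (w : G →* ℤˣ) (θ : MonoidAlgebra ℤ G →+* A)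
    (hα : ∀ x, α (θ x) = MulOpposite.op (θ (bar w x).unop)) {m n : ℕ}
    (M : Matrix (Fin m) (Fin n) (MonoidAlgebra ℤ G)) :
    tr α (M.map θ) = (adj w M).map θ := by
  ext i j
  show (α (θ (M j i))).unop = θ ((bar w (M j i)).unop)
  rw [hα, MulOpposite.unop_op]

end tr

/-- an exact complex has an exact dual -/
theorem coEx_of_ex (w : G →* ℤˣ) (X : Cx G) (θ : MonoidAlgebra ℤ G →+* A) (α : A →+* Aᵐᵒᵖ)
    (hα : ∀ x, α (θ x) = MulOpposite.op (θ (bar w x).unop)) (h : ∀ i, Ex X θ i) (j : ℕ) :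
    CoEx w X θ j := by
  obtain ⟨S, h0, h1⟩ := contraction X θ h
  cases j with
  | zero =>
      intro v hv
      have h2 := congrArg (tr α) h0
      rw [tr_mul, tr_one, tr_map α w θ hα] at h2
      rw [← Matrix.vecMul_one v, ← h2, ← Matrix.vecMul_vecMul, hv, Matrix.zero_vecMul]
  | succ j =>
      intro v hv
      have h2 := congrArg (tr α) (h1 j)
      rw [tr_add, tr_mul, tr_mul, tr_one, tr_map α w θ hα, tr_map α w θ hα] at h2
      refine ⟨v ᵥ* tr α (S j), ?_⟩
      have h3 : v ᵥ* (tr α (S j) * (adj w (X.d j)).map θ +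
          (adj w (X.d (j + 1))).map θ * tr α (S (j + 1))) = v := by
        rw [h2, Matrix.vecMul_one]
      rw [Matrix.vecMul_add, ← Matrix.vecMul_vecMul, ← Matrix.vecMul_vecMul, hv,
        Matrix.zero_vecMul, add_zero] at h3
      exact h3

end

end Z9f173dB
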