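import Pool.Agent.Lib.Z9f173d.Defs

/-!
# Compact aspherical manifolds with boundary: definitions

* `Cx G` : complexes of finitely generated free `ℤ[G]`-modules, given by matrices;
* `bar w` : the involution `g ↦ w(g) g⁻¹` of `ℤ[G]` for an orientation character `w`,
  `adj w M` : the transposed matrix with the involution applied to the entries;
* `Duality w n X Y` : a chain homotopy equivalence `X^{n-*} → Y_*` from the dual complex;
* `AsphericalPair G n` : the chain complexes of a compact aspherical manifold `M` of dimension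
  `n + 1` with fundamental group `G`, of its boundary, and of one component of the boundary.
-/

namespace Z9f173dB

noncomputable section

open Z9f173d
open scoped Matrix

variable {G : Type*} [Group G]

/-- A complex `⋯ → X_2 → X_1 → X_0` of finitely generated free left `ℤ[G]`-modules
`X_i = ℤ[G]^{rank i}` (row vectors); the boundary maps are right multiplication by matrices. -/
structure Cx (G : Type*) [Group G] where
  /-- the rank of `X_i` -/
  rank : ℕ → ℕ
  /-- the boundary maps `X_{i+1} → X_i` -/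
  d : ∀ i, Matrix (Fin (rank (i + 1))) (Fin (rank i)) (MonoidAlgebra ℤ G)
  /-- `d ∘ d = 0` -/
  d_d : ∀ i, d (i + 1) * d i = 0

namespace Cx

variable (X : Cx G) (A : Type*) [Ring A] (θ : MonoidAlgebra ℤ G →+* A)

/-- The boundary map `A^{rank (i+1)} → A^{rank i}` of `A ⊗_{ℤ[G]} X_*`. -/
def bd (i : ℕ) : (Fin (X.rank (i + 1)) → A) →ₗ[A] (Fin (X.rank i) → A) :=
  ((X.d i).map θ).vecMulLinear

/-- The cycles of `A ⊗_{ℤ[G]} X_*` in degree `i`. -/
def cycles : (i : ℕ) → Submodule A (Fin (X.rank i) → A)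
  | 0 => ⊤
  | (i + 1) => LinearMap.ker (X.bd A θ i)

/-- `H_i(A ⊗_{ℤ[G]} X_*)` : kernel modulo image. -/
abbrev homologyWith (i : ℕ) : Type _ :=
  X.cycles A θ i ⧸ (LinearMap.range (X.bd A θ i)).submoduleOf (X.cycles A θ i)

/-- `H_i(C_r^*(G) ⊗_{ℤ[G]} X_*)` -/
abbrev homology (i : ℕ) : Type _ := X.homologyWith (CRed G) (toCRed G) i

end Cx

/-- `g ↦ w(g) g⁻¹`, as a homomorphism to the opposite of `ℤ[G]` -/
def barHom (w : G →* ℤˣ) : G →* (MonoidAlgebra ℤ G)ᵐᵒᵖ where
  toFun g := MulOpposite.op (MonoidAlgebra.single g⁻¹ ((w g : ℤˣ) : ℤ))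
  map_one' := by
    rw [map_one, inv_one, Units.val_one]
    rfl
  map_mul' g h := by
    rw [← MulOpposite.op_mul, MonoidAlgebra.single_mul_single, map_mul, mul_inv_rev, Units.val_mul,
      mul_comm ((w h : ℤˣ) : ℤ)]

/-- The involution `∑ a_g g ↦ ∑ a_g w(g) g⁻¹` of `ℤ[G]`, an antiautomorphism. -/
def bar (w : G →* ℤˣ) : MonoidAlgebra ℤ G →+* (MonoidAlgebra ℤ G)ᵐᵒᵖ :=
  (MonoidAlgebra.lift ℤ (MonoidAlgebra ℤ G)ᵐᵒᵖ G (barHom w)).toRingHom

/-- The adjoint matrix: the involution is applied to the entries of the transposed matrix. -/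
def adj (w : G →* ℤˣ) {m n : ℕ} (M : Matrix (Fin m) (Fin n) (MonoidAlgebra ℤ G)) :
    Matrix (Fin n) (Fin m) (MonoidAlgebra ℤ G) :=
  fun j i => (bar w (M i j)).unop

/-- A chain homotopy equivalence `φ : X^{n-*} → Y_*`, with inverse `ψ` and homotopies `k`, `l`.
Here `X^j = ℤ[G]^{rank j}` is the dual of `X_j`, with the coboundary map `adj w (X.d j) : X^j → X^{j+1}`
(signs are absorbed in the matrices `φ`). -/
structure Duality (w : G →* ℤˣ) (n : ℕ) (X Y : Cx G) where
  /-- `X^j → Y_q` for `j + q = n` -/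
  φ : ∀ j q, j + q = n → Matrix (Fin (X.rank j)) (Fin (Y.rank q)) (MonoidAlgebra ℤ G)
  /-- `Y_q → X^j` for `j + q = n` -/
  ψ : ∀ j q, j + q = n → Matrix (Fin (Y.rank q)) (Fin (X.rank j)) (MonoidAlgebra ℤ G)
  /-- a homotopy `X^{j+1} → X^j` -/
  k : ∀ j, Matrix (Fin (X.rank (j + 1))) (Fin (X.rank j)) (MonoidAlgebra ℤ G)
  /-- a homotopy `Y_q → Y_{q+1}` -/
  l : ∀ q, Matrix (Fin (Y.rank q)) (Fin (Y.rank (q + 1))) (MonoidAlgebra ℤ G)
  /-- `φ` is a chain map -/
  φ_comm : ∀ j q (h : j + (q + 1) = n) (h' : j + 1 + q = n),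
    adj w (X.d j) * φ (j + 1) q h' = φ j (q + 1) h * Y.d q
  /-- `ψ` is a chain map -/
  ψ_comm : ∀ j q (h : j + (q + 1) = n) (h' : j + 1 + q = n),
    Y.d q * ψ (j + 1) q h' = ψ j (q + 1) h * adj w (X.d j)
  /-- `ψ ∘ φ ≃ 1` in degree `0` -/
  hX0 : ∀ h : 0 + n = n, φ 0 n h * ψ 0 n h = 1 + adj w (X.d 0) * k 0
  /-- `ψ ∘ φ ≃ 1` in degree `j + 1` -/
  hX : ∀ j q (h : j + 1 + q = n), φ (j + 1) q h * ψ (j + 1) q h =
    1 + adj w (X.d (j + 1)) * k (j + 1) + k j * adj w (X.d j)
  /-- `φ ∘ ψ ≃ 1` in degree `0` -/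
  hY0 : ∀ h : n + 0 = n, ψ n 0 h * φ n 0 h = 1 + l 0 * Y.d 0
  /-- `φ ∘ ψ ≃ 1` in degree `q + 1` -/
  hY : ∀ j q (h : j + (q + 1) = n), ψ j (q + 1) h * φ j (q + 1) h =
    1 + l (q + 1) * Y.d (q + 1) + Y.d q * l q

/-- The underlying complex of a resolution. -/
def toCx (C : FinRes G) (h : ∀ i, C.d (i + 1) * C.d i = 0) : Cx G := ⟨C.rank, C.d, h⟩

/-- The inclusion `ℤ[K] → ℤ[G]` for a subgroup `K`. -/
def inclK (K : Subgroup G) : MonoidAlgebra ℤ K →+* MonoidAlgebra ℤ G :=
  MonoidAlgebra.mapDomainRingHom ℤ K.subtype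

/-- The chain complexes of a compact aspherical manifold `M` of dimension `n + 1` with nonempty
boundary (a finite aspherical Poincare pair), and of one component of the boundary.

Let `G` be the fundamental group of `M` and `w` its orientation character; let `∂` be the
preimage of the boundary in the universal cover `M~`.  Then `C`, `B`, `Q` are the cellular chain
complexes of `M~`, of `∂` and of the pair; `dual` is Poincare Lefschetz duality.  `K` is the
image in `G` of the fundamental group of a component `N_0` of the boundary, and `N` is the chain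
complex of the connected cover `N` of `N_0` with group `K`, a component of `∂`; so the induced
complex `ℤ[G] ⊗_{ℤ[K]} N` is a direct summand of `B`, and `dualN` is Poincare duality for `N_0`.
Nothing is assumed on the kernel of `π_1(N_0) → K`, nor on the other components. -/
structure AsphericalPair (G : Type*) [Group G] (n : ℕ) where
  /-- the orientation character -/
  w : G →* ℤˣ
  /-- the chains of the universal cover of `M`: a resolution of `ℤ`, as `M` is aspherical -/
  C : FinRes G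
  /-- `d ∘ d = 0` -/
  C_d : ∀ i, C.d (i + 1) * C.d i = 0
  /-- the chains of the preimage of the boundary -/
  B : Cx G
  /-- the relative chains -/
  Q : Cx G
  C_top : ∀ i, n + 1 < i → C.rank i = 0
  B_top : ∀ i, n < i → B.rank i = 0
  Q_top : ∀ i, n + 1 < i → Q.rank i = 0
  /-- the inclusion `B → C` -/
  inc : ∀ i, Matrix (Fin (B.rank i)) (Fin (C.rank i)) (MonoidAlgebra ℤ G)
  /-- the projection `C → Q` -/
  prj : ∀ i, Matrix (Fin (C.rank i)) (Fin (Q.rank i)) (MonoidAlgebra ℤ G)
  /-- a retraction `C_i → B_i`, not a chain map -/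
  ret : ∀ i, Matrix (Fin (C.rank i)) (Fin (B.rank i)) (MonoidAlgebra ℤ G)
  /-- a section `Q_i → C_i`, not a chain map -/
  sec : ∀ i, Matrix (Fin (Q.rank i)) (Fin (C.rank i)) (MonoidAlgebra ℤ G)
  inc_comm : ∀ i, B.d i * inc i = inc (i + 1) * C.d i
  prj_comm : ∀ i, C.d i * prj i = prj (i + 1) * Q.d i
  inc_ret : ∀ i, inc i * ret i = 1
  sec_prj : ∀ i, sec i * prj i = 1
  inc_prj : ∀ i, inc i * prj i = 0
  /-- `0 → B_i → C_i → Q_i → 0` is split exact -/
  split : ∀ i, ret i * inc i + prj i * sec i = 1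
  /-- Poincare Lefschetz duality `C^{n+1-*} ≃ Q_*` -/
  dual : Duality w (n + 1) (toCx C C_d) Q
  /-- the image of the fundamental group of one component of the boundary -/
  K : Subgroup G
  /-- the chains of the cover `N` of this component with group `K` -/
  N : Cx K
  N_top : ∀ i, n < i → N.rank i = 0
  /-- the augmentation of `N_0` on basis vectors -/
  aug : Fin (N.rank 0) → ℤ
  /-- the augmentation is onto -/
  aug_surj : ∃ v : Fin (N.rank 0) → MonoidAlgebra ℤ K, ∑ j, eps K (v j) * aug j = 1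
  /-- `H_0(N) = ℤ` : `N` is connected -/
  exact_zero : ∀ v : Fin (N.rank 0) → MonoidAlgebra ℤ K,
    ∑ j, eps K (v j) * aug j = 0 ↔ ∃ u, u ᵥ* N.d 0 = v
  /-- the inclusion of the induced complex in `B` -/
  a : ∀ i, Matrix (Fin (N.rank i)) (Fin (B.rank i)) (MonoidAlgebra ℤ G)
  /-- the projection of `B` on the induced complex -/
  b : ∀ i, Matrix (Fin (B.rank i)) (Fin (N.rank i)) (MonoidAlgebra ℤ G)
  a_comm : ∀ i, (N.d i).map (inclK K) * a i = a (i + 1) * B.d i
  b_comm : ∀ i, B.d i * b i = b (i + 1) * (N.d i).map (inclK K)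
  a_b : ∀ i, a i * b i = 1
  /-- Poincare duality `N^{n-*} ≃ N_*` -/
  dualN : Duality (w.comp K.subtype) n N N

end

end Z9f173dB
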