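import Pool.Agent.Lib.Z9f173dB.Base

/-!
# Exactness is transported by duality
-/

namespace Z9f173dB

noncomputable section

open Z9f173d
open scoped Matrix

variable {G : Type*} [Group G] {A : Type*} [Ring A]

theorem Duality.ex {w : G →* ℤˣ} {n : ℕ} {X Y : Cx G} (D : Duality w n X Y)
    (θ : MonoidAlgebra ℤ G →+* A) (hX : ∀ i, n < i → X.rank i = 0) {j q : ℕ} (h : j + q = n)
    (hc : CoEx w X θ j) : Ex Y θ q := by
  cases q with
  | zero =>
      obtain rfl : j = n := by simpa using h
      intro v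
      have hz : (v ᵥ* (D.ψ j 0 h).map θ) ᵥ* (adj w (X.d j)).map θ = 0 := by
        funext i
        exact absurd (hX (j + 1) (Nat.lt_succ_self j) ▸ i.pos) (lt_irrefl 0)
      have hY : v ᵥ* (D.ψ j 0 h).map θ ᵥ* (D.φ j 0 h).map θ =
          v + v ᵥ* (D.l 0).map θ ᵥ* (Y.d 0).map θ := by
        rw [Matrix.vecMul_vecMul, map_mul_map, D.hY0 h, map_add', map_one', Matrix.vecMul_add,
          Matrix.vecMul_one, ← map_mul_map, ← Matrix.vecMul_vecMul]
      cases j with
      | zero =>
          have h0 := hc _ hz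
          rw [h0, Matrix.zero_vecMul] at hY
          refine ⟨-(v ᵥ* (D.l 0).map θ), ?_⟩
          rw [Matrix.neg_vecMul]
          exact (eq_neg_of_add_eq_zero_left hY.symm).symm
      | succ j =>
          obtain ⟨u, hu⟩ := hc _ hz
          have h1 : u ᵥ* (adj w (X.d j)).map θ ᵥ* (D.φ (j + 1) 0 h).map θ =
              u ᵥ* (D.φ j (0 + 1) (by omega)).map θ ᵥ* (Y.d 0).map θ := by
            rw [Matrix.vecMul_vecMul, map_mul_map, D.φ_comm j 0 (by omega) h, ← map_mul_map,
              ← Matrix.vecMul_vecMul]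
          rw [hu, hY] at h1
          refine ⟨u ᵥ* (D.φ j (0 + 1) (by omega)).map θ - v ᵥ* (D.l 0).map θ, ?_⟩
          rw [Matrix.sub_vecMul, ← h1]
          abel
  | succ q =>
      intro v hv
      have hz : (v ᵥ* (D.ψ j (q + 1) h).map θ) ᵥ* (adj w (X.d j)).map θ = 0 := by
        rw [Matrix.vecMul_vecMul, map_mul_map, ← D.ψ_comm j q h (by omega), ← map_mul_map,
          ← Matrix.vecMul_vecMul, hv, Matrix.zero_vecMul]
      have hY : v ᵥ* (D.ψ j (q + 1) h).map θ ᵥ* (D.φ j (q + 1) h).map θ =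
          v + v ᵥ* (D.l (q + 1)).map θ ᵥ* (Y.d (q + 1)).map θ := by
        rw [Matrix.vecMul_vecMul, map_mul_map, D.hY j q h, map_add', map_add', map_one',
          Matrix.vecMul_add, Matrix.vecMul_add, Matrix.vecMul_one, ← map_mul_map, ← map_mul_map,
          ← Matrix.vecMul_vecMul, ← Matrix.vecMul_vecMul, hv, Matrix.zero_vecMul, add_zero]
      cases j with
      | zero =>
          have h0 := hc _ hz
          rw [h0, Matrix.zero_vecMul] at hY
          refine ⟨-(v ᵥ* (D.l (q + 1)).map θ), ?_⟩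
          rw [Matrix.neg_vecMul]
          exact (eq_neg_of_add_eq_zero_left hY.symm).symm
      | succ j =>
          obtain ⟨u, hu⟩ := hc _ hz
          have h1 : u ᵥ* (adj w (X.d j)).map θ ᵥ* (D.φ (j + 1) (q + 1) h).map θ =
              u ᵥ* (D.φ j (q + 1 + 1) (by omega)).map θ ᵥ* (Y.d (q + 1)).map θ := by
            rw [Matrix.vecMul_vecMul, map_mul_map, D.φ_comm j (q + 1) (by omega) h, ← map_mul_map,
              ← Matrix.vecMul_vecMul]
          rw [hu, hY] at h1
          refine ⟨u ᵥ* (D.φ j (q + 1 + 1) (by omega)).map θ - v ᵥ* (D.l (q + 1)).map θ, ?_⟩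
          rw [Matrix.sub_vecMul, ← h1]
          abel

end

end Z9f173dB
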