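import Pool.Agent.Lib.Z9f173dB.Ce

/-!
# The Euler characteristic of a complex which is exact over the reduced algebra

`euler` : it is zero. Proof with the canonical trace of `C_r^*(H)`.
-/

namespace Z9f173dB

noncomputable section

open Z9f173d
open scoped Matrix

namespace EuAux

/-- an element of `Ops` as a continuous linear map -/
def op {H : Type*} (T : Ops H) : L2 H →L[ℂ] L2 H := T

variable {H : Type*} [Group H]

open scoped Classical in
/-- the unit vector at `1` -/
def d1 (H : Type*) [Group H] : L2 H := lp.single (E := fun _ : H => ℂ) 2 1 (1 : ℂ)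

/-- the canonical trace -/
def tau (T : Ops H) : ℂ := inner ℂ (d1 H) (op T (d1 H))

theorem tau_add (S T : Ops H) : tau (S + T) = tau S + tau T := by
  have h : op (S + T) (d1 H) = op S (d1 H) + op T (d1 H) := rfl
  unfold tau
  rw [h, inner_add_right]

theorem tau_zero : tau (0 : Ops H) = 0 := by
  have h : op (0 : Ops H) (d1 H) = 0 := rfl
  unfold tau
  rw [h, inner_zero_right]

theorem tau_neg (T : Ops H) : tau (-T) = -tau T := by
  rw [eq_neg_iff_add_eq_zero, ← tau_add, neg_add_cancel, tau_zero]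

theorem continuous_tau : Continuous (tau : Ops H → ℂ) := by
  have : Continuous fun T : L2 H →L[ℂ] L2 H => inner ℂ (d1 H) (T (d1 H)) :=
    continuous_const.inner (continuous_id.clm_apply continuous_const)
  exact this

theorem tau_scLam (c : ℂ) (g : H) [Decidable (g = 1)] : tau (scLam c g) = if g = 1 then c else 0 := by
  classical
  have h1 : (op (scLam c g) (d1 H)) 1 = c • (d1 H) (g⁻¹ * 1) := rfl
  unfold tau
  nth_rewrite 1 [d1]
  rw [lp.inner_single_left, h1, mul_one]
  unfold d1
  rw [lp.single_apply]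
  by_cases h : g = 1
  · subst h
    simp
  · have h' : g⁻¹ ≠ 1 := fun h3 => h (inv_eq_one.1 h3)
    simp [h, h']

theorem scLam_mul' (c c' : ℂ) (g h : H) :
    scLam c g * scLam c' h = scLam (c * c') (g * h) := by
  refine ContinuousLinearMap.ext fun ξ => ?_
  ext x
  show c • (c' • ξ (h⁻¹ * (g⁻¹ * x))) = (c * c') • ξ ((g * h)⁻¹ * x)
  rw [mul_inv_rev, mul_assoc, smul_smul]

/-- induction for the reduced algebra -/
theorem redAlg_induct (P : Ops H → Prop) (hcl : IsClosed {T : Ops H | P T}) (h0 : P 0)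
    (hadd : ∀ S T, P S → P T → P (S + T)) (hneg : ∀ T, P T → P (-T))
    (hs : ∀ c g, P (scLam c g)) (T : Ops H) (hT : T ∈ redAlg H) : P T := by
  have hT' : T ∈ closure ((Subring.closure {T : Ops H | ∃ (c : ℂ) (g : H), T = scLam c g} :
      Subring (Ops H)) : Set (Ops H)) := hT
  refine closure_minimal ?_ hcl hT'
  intro S hS
  rw [SetLike.mem_coe, Subring.mem_closure_iff] at hS
  show P S
  induction hS using AddSubgroup.closure_induction with
  | mem x hx =>
    have hx2 : ∃ (c : ℂ) (g : H), x = scLam c g := by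
      induction hx using Submonoid.closure_induction with
      | mem y hy => exact hy
      | one => exact ⟨1, 1, scLam_one_one.symm⟩
      | mul a b _ _ ha hb =>
        obtain ⟨c, g, rfl⟩ := ha
        obtain ⟨c', h, rfl⟩ := hb
        exact ⟨c * c', g * h, scLam_mul' c c' g h⟩
    obtain ⟨c, g, rfl⟩ := hx2
    exact hs c g
  | zero => exact h0
  | add x y _ _ hx hy => exact hadd _ _ hx hy
  | neg x _ hx => exact hneg _ hx

theorem tau_comm (S T : Ops H) (hS : S ∈ redAlg H) (hT : T ∈ redAlg H) :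
    tau (S * T) = tau (T * S) := by
  classical
  refine redAlg_induct (fun S => tau (S * T) = tau (T * S)) ?_ ?_ ?_ ?_ ?_ S hS
  · exact isClosed_eq (continuous_tau.comp (continuous_id.mul continuous_const))
      (continuous_tau.comp (continuous_const.mul continuous_id))
  · rw [zero_mul, mul_zero]
  · intro A B hA hB
    rw [add_mul, mul_add, tau_add, tau_add, hA, hB]
  · intro A hA
    rw [neg_mul, mul_neg, tau_neg, tau_neg, hA]
  · intro c g
    refine redAlg_induct (fun T => tau (scLam c g * T) = tau (T * scLam c g)) ?_ ?_ ?_ ?_ ?_ T hT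
    · exact isClosed_eq (continuous_tau.comp (continuous_const.mul continuous_id))
        (continuous_tau.comp (continuous_id.mul continuous_const))
    · rw [zero_mul, mul_zero]
    · intro A B hA hB
      rw [add_mul, mul_add, tau_add, tau_add, hA, hB]
    · intro A hA
      rw [neg_mul, mul_neg, tau_neg, tau_neg, hA]
    · intro c' h
      rw [scLam_mul', scLam_mul', tau_scLam, tau_scLam, mul_comm c]
      by_cases h1 : g * h = 1
      · rw [if_pos h1, if_pos (mul_eq_one_comm.1 h1)]
      · rw [if_neg h1, if_neg fun h2 => h1 (mul_eq_one_comm.1 h2)]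

theorem tau_one : tau (1 : Ops H) = 1 := by
  classical
  rw [← scLam_one_one, tau_scLam, if_pos rfl]

/-- the trace of a square matrix over the reduced algebra -/
def ttr {m : ℕ} (M : Matrix (Fin m) (Fin m) (CRed H)) : ℂ := ∑ i, tau (M i i).1

theorem tau_sum {ι : Type*} (s : Finset ι) (f : ι → CRed H) :
    tau (∑ i ∈ s, f i).1 = ∑ i ∈ s, tau (f i).1 := by
  classical
  induction s using Finset.induction_on with
  | empty =>
    rw [Finset.sum_empty, Finset.sum_empty]
    exact tau_zero
  | insert a s ha ih =>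
    rw [Finset.sum_insert ha, Finset.sum_insert ha, ← ih]
    exact tau_add _ _

theorem ttr_mul_comm {m n : ℕ} (A : Matrix (Fin m) (Fin n) (CRed H))
    (B : Matrix (Fin n) (Fin m) (CRed H)) : ttr (A * B) = ttr (B * A) := by
  have h1 : ttr (A * B) = ∑ i, ∑ j, tau ((A i j).1 * (B j i).1) := by
    unfold ttr
    refine Finset.sum_congr rfl fun i _ => ?_
    have h2 : (A * B) i i = ∑ j, A i j * B j i := rfl
    rw [h2, tau_sum]
    rfl
  have h3 : ttr (B * A) = ∑ j, ∑ i, tau ((B j i).1 * (A i j).1) := by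
    unfold ttr
    refine Finset.sum_congr rfl fun i _ => ?_
    have h2 : (B * A) i i = ∑ j, B i j * A j i := rfl
    rw [h2, tau_sum]
    rfl
  rw [h1, h3, Finset.sum_comm]
  exact Finset.sum_congr rfl fun j _ => Finset.sum_congr rfl fun i _ =>
    tau_comm _ _ (A i j).2 (B j i).2

theorem ttr_add {m : ℕ} (A B : Matrix (Fin m) (Fin m) (CRed H)) :
    ttr (A + B) = ttr A + ttr B := by
  unfold ttr
  rw [← Finset.sum_add_distrib]
  exact Finset.sum_congr rfl fun i _ => tau_add _ _

theorem ttr_one {m : ℕ} : ttr (1 : Matrix (Fin m) (Fin m) (CRed H)) = m := by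
  unfold ttr
  have h : ∀ i : Fin m, tau ((1 : Matrix (Fin m) (Fin m) (CRed H)) i i).1 = 1 := by
    intro i
    rw [Matrix.one_apply_eq]
    exact tau_one
  rw [Finset.sum_congr rfl fun i _ => h i]
  simp

theorem ttr_indep {l m : ℕ} (D : Matrix (Fin m) (Fin l) (CRed H))
    (S S' : Matrix (Fin l) (Fin m) (CRed H)) (h : D * (S * D) = D) (h' : D * (S' * D) = D) :
    ttr (S * D) = ttr (S' * D) := by
  have h1 : (S * D) * (S' * D) = S * D := by rw [Matrix.mul_assoc, h']
  have h2 : (S' * D) * (S * D) = S' * D := by rw [Matrix.mul_assoc, h]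
  rw [← h1, ttr_mul_comm, h2]

end EuAux

open EuAux

theorem euler {H : Type*} [Group H] (X : Cx H) (n : ℕ) (ht : ∀ i, n < i → X.rank i = 0)
    (h : ∀ q, Ex X (toCRed H) q) :
    ∑ i ∈ Finset.range (n + 1), (-1 : ℤ) ^ i * (X.rank i : ℤ) = 0 := by
  have hd : ∀ i, (X.d (i + 1)).map (toCRed H) * (X.d i).map (toCRed H) = 0 := by
    intro i
    rw [map_mul_map, X.d_d, map_zero']
  have h0 : ∀ v : Fin (X.rank 0) → CRed H, ∃ u, u ᵥ* (X.d 0).map (toCRed H) = v := h 0
  have hs : ∀ (q : ℕ) (v : Fin (X.rank (q + 1)) → CRed H), v ᵥ* (X.d q).map (toCRed H) = 0 →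
      ∃ u, u ᵥ* (X.d (q + 1)).map (toCRed H) = v := fun q => h (q + 1)
  have hS := exists_contr X.rank (fun i => (X.d i).map (toCRed H)) hd h0 hs
  choose S hS using hS
  set t : ℕ → ℂ := fun q => ttr (S q * (X.d q).map (toCRed H)) with ht'
  have hr0 : (X.rank 0 : ℂ) = t 0 := by
    obtain ⟨S0, hS0⟩ := rows ((X.d 0).map (toCRed H))
      (1 : Matrix (Fin (X.rank 0)) (Fin (X.rank 0)) (CRed H)) fun i => h0 _
    have h1 : (X.d 0).map (toCRed H) * (S0 * (X.d 0).map (toCRed H)) = (X.d 0).map (toCRed H) := by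
      rw [hS0, Matrix.mul_one]
    have h2 := ttr_indep _ S0 (S 0) h1 (hS 0)
    rw [hS0, ttr_one] at h2
    exact h2
  have hr : ∀ q, (X.rank (q + 1) : ℂ) = t q + t (q + 1) := by
    intro q
    obtain ⟨S', h1, h2⟩ := exists_contr_step X.rank (fun i => (X.d i).map (toCRed H)) hd q (hs q)
      (S q) (hS q)
    have h3 := congrArg ttr h1
    rw [ttr_add, ttr_one, ttr_mul_comm, ttr_indep _ S' (S (q + 1)) h2 (hS (q + 1))] at h3
    exact h3.symm
  have htn : t n = 0 := by
    have h1 : t n = ttr ((X.d n).map (toCRed H) * S n) := ttr_mul_comm _ _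
    rw [h1]
    unfold ttr
    refine Finset.sum_eq_zero fun i _ => ?_
    exact absurd (ht (n + 1) (Nat.lt_succ_self n) ▸ i.pos) (lt_irrefl 0)
  have hsum : ∀ m : ℕ, ∑ i ∈ Finset.range (m + 1), (-1 : ℂ) ^ i * (X.rank i : ℂ) =
      (-1) ^ m * t m := by
    intro m
    induction m with
    | zero => simp [hr0]
    | succ m ih =>
      rw [Finset.sum_range_succ, ih, hr m, pow_succ]
      ring
  have hfin := hsum n
  rw [htn, mul_zero] at hfin
  exact_mod_cast hfin

end

end Z9f173dB
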