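import Pool.Agent.Lib.Z9f173dB.Ind

/-!
# Exactness of the boundary complex and of the induced complex
-/

namespace Z9f173dB

noncomputable section

open Z9f173d
open scoped Matrix

variable {G : Type*} [Group G] {A : Type*} [Ring A]

theorem seq_core {n : ℕ} (M : AsphericalPair G n) (θ : MonoidAlgebra ℤ G →+* A) (q : ℕ)
    (v : Fin (M.B.rank q) → A) (u : Fin (M.C.rank (q + 1)) → A)
    (hu : u ᵥ* (M.C.d q).map θ = v ᵥ* (M.inc q).map θ) (hQ : Ex M.Q θ (q + 1)) :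
    ∃ b, b ᵥ* (M.B.d q).map θ = v := by
  have h1 : u ᵥ* (M.prj (q + 1)).map θ ᵥ* (M.Q.d q).map θ = 0 := by
    rw [Matrix.vecMul_vecMul, map_mul_map, ← M.prj_comm, ← map_mul_map, ← Matrix.vecMul_vecMul, hu,
      Matrix.vecMul_vecMul, map_mul_map, M.inc_prj, map_zero', Matrix.vecMul_zero]
  obtain ⟨t, ht⟩ := hQ _ h1
  set u' : Fin (M.C.rank (q + 1)) → A :=
    u - t ᵥ* (M.sec (q + 2)).map θ ᵥ* (M.C.d (q + 1)).map θ with hu'
  have h2 : u' ᵥ* (M.prj (q + 1)).map θ = 0 := by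
    rw [hu', Matrix.sub_vecMul, Matrix.vecMul_vecMul _ ((M.C.d (q + 1)).map θ), map_mul_map,
      M.prj_comm, ← map_mul_map, ← Matrix.vecMul_vecMul, Matrix.vecMul_vecMul t, map_mul_map,
      M.sec_prj, map_one', Matrix.vecMul_one, ht, sub_self]
  have h3 : u' ᵥ* (M.ret (q + 1)).map θ ᵥ* (M.inc (q + 1)).map θ = u' := by
    have h4 : u' ᵥ* ((M.ret (q + 1) * M.inc (q + 1) + M.prj (q + 1) * M.sec (q + 1)).map θ) =
        u' := by
      rw [M.split, map_one', Matrix.vecMul_one]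
    rw [map_add', Matrix.vecMul_add, ← map_mul_map, ← map_mul_map, ← Matrix.vecMul_vecMul,
      ← Matrix.vecMul_vecMul, h2, Matrix.zero_vecMul, add_zero] at h4
    exact h4
  have h5 : u' ᵥ* (M.C.d q).map θ = v ᵥ* (M.inc q).map θ := by
    rw [hu', Matrix.sub_vecMul, Matrix.vecMul_vecMul _ ((M.C.d (q + 1)).map θ), map_mul_map,
      M.C_d, map_zero', Matrix.vecMul_zero, sub_zero, hu]
  refine ⟨u' ᵥ* (M.ret (q + 1)).map θ, ?_⟩
  have h6 : u' ᵥ* (M.ret (q + 1)).map θ ᵥ* (M.B.d q).map θ ᵥ* (M.inc q).map θ =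
      v ᵥ* (M.inc q).map θ := by
    rw [Matrix.vecMul_vecMul _ ((M.B.d q).map θ), map_mul_map, M.inc_comm, ← map_mul_map,
      ← Matrix.vecMul_vecMul, h3, h5]
  have h7 := congrArg (fun z => z ᵥ* (M.ret q).map θ) h6
  simp only [Matrix.vecMul_vecMul _ ((M.inc q).map θ) ((M.ret q).map θ), map_mul_map, M.inc_ret,
    map_one', Matrix.vecMul_one] at h7
  exact h7

/-- exactness of the boundary complex -/
theorem ex_B {n : ℕ} (M : AsphericalPair G n) (θ : MonoidAlgebra ℤ G →+* A) (q : ℕ)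
    (hC : Ex (toCx M.C M.C_d) θ q) (hQ : Ex M.Q θ (q + 1)) : Ex M.B θ q := by
  cases q with
  | zero =>
      intro v
      obtain ⟨u, hu⟩ := hC (v ᵥ* (M.inc 0).map θ)
      exact seq_core M θ 0 v u hu hQ
  | succ q =>
      intro v hv
      have h1 : v ᵥ* (M.inc (q + 1)).map θ ᵥ* (M.C.d q).map θ = 0 := by
        rw [Matrix.vecMul_vecMul, map_mul_map, ← M.inc_comm, ← map_mul_map,
          ← Matrix.vecMul_vecMul, hv, Matrix.zero_vecMul]
      obtain ⟨u, hu⟩ := hC _ h1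
      exact seq_core M θ (q + 1) v u hu hQ

/-- exactness of the induced complex -/
theorem ex_Ind {n : ℕ} (M : AsphericalPair G n) (θ : MonoidAlgebra ℤ G →+* A) (q : ℕ)
    (hB : Ex M.B θ q) : Ex (Ind M.K M.N) θ q := by
  have core : ∀ (q : ℕ) (v : Fin (M.N.rank q) → A) (u : Fin (M.B.rank (q + 1)) → A),
      u ᵥ* (M.B.d q).map θ = v ᵥ* (M.a q).map θ →
      ∃ t, t ᵥ* (((M.N.d q).map (inclK M.K)).map θ) = v := by
    intro q v u hu
    refine ⟨u ᵥ* (M.b (q + 1)).map θ, ?_⟩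
    rw [Matrix.vecMul_vecMul, map_mul_map, ← M.b_comm, ← map_mul_map, ← Matrix.vecMul_vecMul, hu,
      Matrix.vecMul_vecMul, map_mul_map, M.a_b, map_one', Matrix.vecMul_one]
  cases q with
  | zero =>
      intro v
      obtain ⟨u, hu⟩ := hB (v ᵥ* (M.a 0).map θ)
      exact core 0 v u hu
  | succ q =>
      have h1 : ∀ v : Fin (M.N.rank (q + 1)) → A, v ᵥ* (((M.N.d q).map (inclK M.K)).map θ) = 0 →
          v ᵥ* (M.a (q + 1)).map θ ᵥ* (M.B.d q).map θ = 0 := by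
        intro v h2
        rw [Matrix.vecMul_vecMul, map_mul_map, ← M.a_comm, ← map_mul_map, ← Matrix.vecMul_vecMul,
          h2, Matrix.zero_vecMul]
      intro v hv
      obtain ⟨u, hu⟩ := hB _ (h1 v hv)
      exact core (q + 1) v u hu

end

end Z9f173dB
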