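import Pool.Agent.Lib.Z9f173dB.Bar

/-!
# The antiautomorphism of the reduced algebra extending the involution of the group ring
-/

namespace Z9f173dB

noncomputable section

open Z9f173d
open scoped Matrix ComplexConjugate

variable {G : Type*} [Group G]

/-- the sign of the character as a complex number -/
def sg (w : G →* ℤˣ) (x : G) : ℂ := (((w x : ℤˣ) : ℤ) : ℂ)

theorem sg_mul (w : G →* ℤˣ) (x y : G) : sg w (x * y) = sg w x * sg w y := by
  unfold sg
  rw [map_mul, Units.val_mul, Int.cast_mul]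

theorem sg_sq (w : G →* ℤˣ) (x : G) : sg w x * sg w x = 1 := by
  unfold sg
  rw [← Int.cast_mul, ← Units.val_mul, Int.units_mul_self, Units.val_one, Int.cast_one]

theorem sg_inv (w : G →* ℤˣ) (x : G) : sg w x⁻¹ = sg w x := by
  unfold sg
  rw [map_inv, Int.units_inv_eq_self]

theorem norm_sg (w : G →* ℤˣ) (x : G) : ‖sg w x‖ = 1 := by
  unfold sg
  rcases Int.units_eq_one_or (w x) with h | h <;> rw [h] <;> simp

theorem memlp_sg (w : G →* ℤˣ) (ξ : L2 G) :
    Memℓp (E := fun _ : G => ℂ) (fun x => sg w x * ξ x) 2 := by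
  have h := ξ.2.summable (by norm_num)
  refine memℓp_gen ?_
  refine h.congr fun x => ?_
  rw [norm_mul, norm_sg, one_mul]

/-- multiplication by the character -/
def wFun (w : G →* ℤˣ) (ξ : L2 G) : L2 G := ⟨fun x => sg w x * ξ x, memlp_sg w ξ⟩

theorem norm_wFun (w : G →* ℤˣ) (ξ : L2 G) : ‖wFun w ξ‖ = ‖ξ‖ := by
  have h2 : (0 : ℝ) < (2 : ENNReal).toReal := by norm_num
  rw [lp.norm_eq_tsum_rpow h2, lp.norm_eq_tsum_rpow h2]
  congr 1
  refine tsum_congr fun x => ?_
  show ‖sg w x * ξ x‖ ^ _ = _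
  rw [norm_mul, norm_sg, one_mul]

/-- multiplication by the character, as an operator -/
def wOp (w : G →* ℤˣ) : Ops G :=
  LinearMap.mkContinuous
    { toFun := wFun w
      map_add' := fun ξ η => by
        ext x
        show sg w x * (ξ x + η x) = sg w x * ξ x + sg w x * η x
        ring
      map_smul' := fun a ξ => by
        ext x
        show sg w x * (a * ξ x) = a * (sg w x * ξ x)
        ring } 1 (fun ξ => by
          show ‖wFun w ξ‖ ≤ 1 * ‖ξ‖
          rw [norm_wFun, one_mul])

theorem wOp_sq (w : G →* ℤˣ) : wOp w * wOp w = 1 := by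
  refine ContinuousLinearMap.ext fun ξ => ?_
  ext x
  show sg w x * (sg w x * ξ x) = ξ x
  rw [← mul_assoc, sg_sq, one_mul]

theorem wOp_scLam (w : G →* ℤˣ) (c : ℂ) (g : G) :
    wOp w * scLam c g * wOp w = scLam (c * sg w g) g := by
  refine ContinuousLinearMap.ext fun ξ => ?_
  ext x
  show sg w x * (c * (sg w (g⁻¹ * x) * ξ (g⁻¹ * x))) = c * sg w g * ξ (g⁻¹ * x)
  rw [sg_mul, sg_inv]
  have h := sg_sq w x
  linear_combination (c * sg w g * ξ (g⁻¹ * x)) * h

/-- the adjoint operator -/
def adjO (T : Ops G) : Ops G := ContinuousLinearMap.adjoint (T : L2 G →L[ℂ] L2 G)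

theorem adjO_mul (S T : Ops G) : adjO (S * T) = adjO T * adjO S :=
  ContinuousLinearMap.adjoint_comp (S : L2 G →L[ℂ] L2 G) (T : L2 G →L[ℂ] L2 G)

theorem adjO_add (S T : Ops G) : adjO (S + T) = adjO S + adjO T :=
  map_add ContinuousLinearMap.adjoint (S : L2 G →L[ℂ] L2 G) (T : L2 G →L[ℂ] L2 G)

theorem adjO_one : adjO (1 : Ops G) = 1 := by
  have h : star (1 : L2 G →L[ℂ] L2 G) = 1 := star_one _
  exact h

theorem adjO_zero : adjO (0 : Ops G) = 0 :=
  map_zero (ContinuousLinearMap.adjoint (𝕜 := ℂ) (E := L2 G) (F := L2 G))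

theorem continuous_adjO : Continuous (adjO : Ops G → Ops G) :=
  (ContinuousLinearMap.adjoint (𝕜 := ℂ) (E := L2 G) (F := L2 G)).continuous

theorem adjO_scLam (c : ℂ) (g : G) : adjO (scLam c g) = scLam (conj c) g⁻¹ := by
  symm
  refine (ContinuousLinearMap.eq_adjoint_iff (𝕜 := ℂ) (E := L2 G) (F := L2 G) _ _).2 fun ξ η => ?_
  show inner ℂ (scFun (conj c) g⁻¹ ξ) η = inner ℂ ξ (scFun c g η)
  rw [lp.inner_eq_tsum, lp.inner_eq_tsum]
  rw [← (Equiv.mulLeft g⁻¹).tsum_eq]
  refine tsum_congr fun x => ?_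
  have h1 : (scFun (conj c) g⁻¹ ξ : L2 G) ((Equiv.mulLeft g⁻¹) x) = conj c * ξ x := by
    show conj c * ξ (g⁻¹⁻¹ * (g⁻¹ * x)) = _
    rw [inv_inv, mul_inv_cancel_left]
  have h2 : (scFun c g η : L2 G) x = c * η (g⁻¹ * x) := rfl
  rw [h1, h2]
  simp only [RCLike.inner_apply, map_mul, RingHomCompTriple.comp_apply, RingHom.id_apply,
    Equiv.coe_mulLeft]
  ring

/-- `T ↦ W T^* W`, an antiautomorphism -/
def alpha0 (w : G →* ℤˣ) : Ops G →+* (Ops G)ᵐᵒᵖ where
  toFun T := MulOpposite.op (wOp w * adjO T * wOp w)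
  map_one' := by rw [adjO_one, mul_one, wOp_sq, MulOpposite.op_one]
  map_mul' S T := by
    rw [← MulOpposite.op_mul, adjO_mul]
    congr 1
    have h := wOp_sq w
    calc wOp w * (adjO T * adjO S) * wOp w = wOp w * adjO T * 1 * adjO S * wOp w := by
          noncomm_ring
      _ = wOp w * adjO T * (wOp w * wOp w) * adjO S * wOp w := by rw [h]
      _ = _ := by noncomm_ring
  map_zero' := by rw [adjO_zero, mul_zero, zero_mul, MulOpposite.op_zero]
  map_add' S T := by rw [← MulOpposite.op_add, adjO_add, mul_add, add_mul]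

theorem alpha0_scLam (w : G →* ℤˣ) (c : ℂ) (g : G) :
    (alpha0 w (scLam c g)).unop = scLam (conj c * sg w g) g⁻¹ := by
  show wOp w * adjO (scLam c g) * wOp w = _
  rw [adjO_scLam, wOp_scLam, sg_inv]

theorem alpha0_mem (w : G →* ℤˣ) {T : Ops G} (hT : T ∈ redAlg G) :
    (alpha0 w T).unop ∈ redAlg G := by
  have h1 : redAlg G ≤ (redAlg G).op.comap (alpha0 w) := by
    refine Subring.topologicalClosure_minimal _ ?_ ?_
    · rw [Subring.closure_le]
      rintro _ ⟨c, g, rfl⟩
      show (alpha0 w (scLam c g)).unop ∈ redAlg G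
      rw [alpha0_scLam]
      exact scLam_mem _ _
    · have h2 : IsClosed ((redAlg G : Subring (Ops G)) : Set (Ops G)) :=
        Subring.isClosed_topologicalClosure _
      have h3 : Continuous fun T : Ops G => wOp w * adjO T * wOp w :=
        (continuous_const.mul continuous_adjO).mul continuous_const
      exact h2.preimage h3
  exact h1 hT

/-- the antiautomorphism of the reduced algebra -/
def alpha (w : G →* ℤˣ) : CRed G →+* (CRed G)ᵐᵒᵖ where
  toFun T := MulOpposite.op ⟨(alpha0 w T.1).unop, alpha0_mem w T.2⟩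
  map_one' := by
    apply MulOpposite.unop_injective
    apply Subtype.ext
    show (alpha0 w 1).unop = 1
    rw [map_one, MulOpposite.unop_one]
  map_mul' S T := by
    apply MulOpposite.unop_injective
    apply Subtype.ext
    show (alpha0 w (S.1 * T.1)).unop = (alpha0 w T.1).unop * (alpha0 w S.1).unop
    rw [map_mul, MulOpposite.unop_mul]
  map_zero' := by
    apply MulOpposite.unop_injective
    apply Subtype.ext
    show (alpha0 w 0).unop = 0
    rw [map_zero, MulOpposite.unop_zero]
  map_add' S T := by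
    apply MulOpposite.unop_injective
    apply Subtype.ext
    show (alpha0 w (S.1 + T.1)).unop = (alpha0 w S.1).unop + (alpha0 w T.1).unop
    rw [map_add, MulOpposite.unop_add]

theorem toCRed_single (g : G) (a : ℤ) : toCRed G (MonoidAlgebra.single g a) = a • lamC G g :=
  MonoidAlgebra.lift_single (lamC G) g a

theorem alpha_lamC (w : G →* ℤˣ) (g : G) :
    alpha w (lamC G g) = MulOpposite.op (((w g : ℤˣ) : ℤ) • lamC G g⁻¹) := by
  apply MulOpposite.unop_injective
  apply Subtype.ext
  have h1 : (alpha0 w (scLam 1 g)).unop = ((w g : ℤˣ) : ℤ) • scLam 1 g⁻¹ := by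
    rw [alpha0_scLam, map_one, one_mul]
    refine ContinuousLinearMap.ext fun ξ => ?_
    ext x
    rcases Int.units_eq_one_or (w g) with h | h
    · have h2 : sg w g = 1 := by unfold sg; rw [h]; simp
      rw [h2, h, Units.val_one, one_smul]
    · have h2 : sg w g = -1 := by unfold sg; rw [h]; simp
      rw [h2, h, Units.val_neg, Units.val_one, neg_smul, one_smul]
      show (-1 : ℂ) * _ = -((1 : ℂ) * _)
      ring
  refine h1.trans ?_
  rfl

/-- on the group ring it is the involution -/
theorem alpha_toCRed (w : G →* ℤˣ) (x : MonoidAlgebra ℤ G) :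
    alpha w (toCRed G x) = MulOpposite.op (toCRed G (bar w x).unop) := by
  induction x using MonoidAlgebra.induction_linear with
  | zero => simp
  | add x y hx hy => rw [map_add, map_add, hx, hy, bar_add, map_add, MulOpposite.op_add]
  | single g a =>
      rw [toCRed_single, bar_single, toCRed_single, map_zsmul, alpha_lamC, ← MulOpposite.op_smul,
        smul_smul]

end

end Z9f173dB
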