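import Pool.Agent.Lib.Z9f173dB.Base
import Pool.Agent.Lib.Z9f173d.Tf

/-!
# A group with a finite free resolution is torsion-free
-/

namespace Z9f173dB

open Z9f173d

theorem torsion_free {G : Type*} [Group G] (C : FinRes G) (m : ℕ)
    (h : ∀ i, m < i → C.rank i = 0) (g : G) (hg : IsOfFinOrder g) : g = 1 :=
  C.torsion_free (m + 1) (h _ (Nat.lt_succ_self m)) g hg

end Z9f173dB
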