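import Pool.Agent.Lib.Z9f173dB.Coh
import Pool.Agent.Lib.Z9f173dB.Seq
import Pool.Agent.Lib.Z9f173dB.Dua
import Pool.Agent.Lib.Z9f173dB.Ctr
import Pool.Agent.Lib.Z9f173dB.Star
import Pool.Agent.Lib.Z9f173dB.Ce
import Pool.Agent.Lib.Z9f173dB.Tf

/-!
# Compact aspherical manifolds with nonempty boundary
-/

namespace Z9f173dB

noncomputable section

open Z9f173d
open scoped Matrix

variable {G : Type*} [Group G]

theorem ex_of_rank {A : Type*} [Ring A] (X : Cx G) (θ : MonoidAlgebra ℤ G →+* A) (q : ℕ)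
    (h : X.rank q = 0) : Ex X θ q := by
  cases q with
  | zero =>
      intro v
      refine ⟨0, ?_⟩
      funext i
      exact absurd (h ▸ i.pos) (lt_irrefl 0)
  | succ q =>
      intro v _
      refine ⟨0, ?_⟩
      funext i
      exact absurd (h ▸ i.pos) (lt_irrefl 0)

/-- If the reduced homology of `M` vanishes, so does that of the boundary component. -/
theorem N_exact {n : ℕ} (M : AsphericalPair G n) (h : ∀ i, ¬ Nontrivial (M.C.homology i)) (q : ℕ) :
    Ex M.N (toCRed M.K) q := by
  have hC : ∀ i, Ex (toCx M.C M.C_d) (toCRed G) i := fun i =>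
    (not_nontrivial_finRes M.C M.C_d (toCRed G) i).1 (h i)
  have hco := coEx_of_ex M.w (toCx M.C M.C_d) (toCRed G) (alpha M.w) (alpha_toCRed M.w) hC
  have hQ : ∀ q, Ex M.Q (toCRed G) q := by
    intro q
    by_cases hq : q ≤ n + 1
    · exact M.dual.ex (toCRed G) M.C_top (j := n + 1 - q) (by omega) (hco _)
    · exact ex_of_rank _ _ _ (M.Q_top q (by omega))
  have hB : ∀ q, Ex M.B (toCRed G) q := fun q => ex_B M (toCRed G) q (hC q) (hQ (q + 1))
  exact ex_of_ind_red M.K M.N (fun q => ex_Ind M (toCRed G) q (hB q)) q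

/-- the resolution of length three obtained from an acyclic boundary component -/
def resN {n : ℕ} (M : AsphericalPair G n)
    (h : ∀ q, Ex M.N (RingHom.id (MonoidAlgebra ℤ M.K)) (q + 1)) : FinRes M.K where
  rank := M.N.rank
  d := M.N.d
  aug := M.aug
  aug_surj := M.aug_surj
  exact_zero := M.exact_zero
  exact_succ := fun i v => by
    constructor
    · intro hv
      exact h i v hv
    · rintro ⟨u, rfl⟩
      rw [Matrix.vecMul_vecMul, M.N.d_d, Matrix.vecMul_zero]

/-- elements of the group ring of the trivial group -/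
theorem eps_eq_zero {H : Type*} [Group H] (hH : ∀ g : H, g = 1) (x : MonoidAlgebra ℤ H)
    (hx : eps H x = 0) : x = 0 := by
  have h1 : ∀ x : MonoidAlgebra ℤ H, x = MonoidAlgebra.single 1 (eps H x) := by
    intro x
    induction x using MonoidAlgebra.induction_linear with
    | zero => rw [map_zero, MonoidAlgebra.single_zero]
    | add x y hx hy => rw [map_add, MonoidAlgebra.single_add, ← hx, ← hy]
    | single g a =>
        have h2 : eps H (MonoidAlgebra.single g a) = a := by
          have h3 : eps H (MonoidAlgebra.single g a) = a • (1 : H →* ℤ) g :=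
            MonoidAlgebra.lift_single (1 : H →* ℤ) g a
          rw [h3, MonoidHom.one_apply, smul_eq_mul, mul_one]
        rw [h2, hH g]
  rw [h1 x, hx, MonoidAlgebra.single_zero]

/-- the trivial group has nonzero homology -/
theorem not_trivial (R : FinRes G) (hG : ∀ g : G, g = 1) (h : ∀ i, ¬ Nontrivial (R.homology i)) :
    False := by
  obtain ⟨c0, -, -⟩ := cols R (h 0) (h 1) (h 2)
  have h1 : (R.d 0 *ᵥ fun b => MonoidAlgebra.single (1 : G) (R.aug b)) = 0 := by
    funext a
    refine eps_eq_zero hG _ ?_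
    have h2 : (R.d 0 *ᵥ fun b => MonoidAlgebra.single (1 : G) (R.aug b)) a =
        ∑ b, R.d 0 a b * MonoidAlgebra.single (1 : G) (R.aug b) := rfl
    rw [h2, map_sum]
    have h3 : ∑ b, eps G (R.d 0 a b) * R.aug b = 0 := by
      have h4 := (R.exact_zero (fun b => R.d 0 a b)).2 ⟨Pi.single a 1, by
        rw [Matrix.single_one_vecMul]; rfl⟩
      exact h4
    rw [← h3]
    refine Finset.sum_congr rfl fun b _ => ?_
    rw [map_mul]
    congr 1
    have h5 : eps G (MonoidAlgebra.single (1 : G) (R.aug b)) = R.aug b • (1 : G →* ℤ) 1 :=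
      MonoidAlgebra.lift_single (1 : G →* ℤ) 1 (R.aug b)
    rw [h5, MonoidHom.one_apply, smul_eq_mul, mul_one]
  have h2 := c0 _ h1
  obtain ⟨v, hv⟩ := R.aug_surj
  have h3 : ∀ b, R.aug b = 0 := by
    intro b
    have h4 : MonoidAlgebra.single (1 : G) (R.aug b) = 0 := congrFun h2 b
    exact MonoidAlgebra.single_eq_zero.1 h4
  simp [h3] at hv

/-- Dimension at most four. -/
theorem dim_le_four {n : ℕ} (hn : n ≤ 3) (M : AsphericalPair G n) :
    ∃ i, Nontrivial (M.C.homology i) := by
  by_contra hcon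
  have h : ∀ i, ¬ Nontrivial (M.C.homology i) := fun i hi => hcon ⟨i, hi⟩
  have hco := coEx_int M.w M.C M.C_d h
  have hQ : ∀ q, 2 ≤ q → Ex M.Q (RingHom.id (MonoidAlgebra ℤ G)) q := by
    intro q hq
    by_cases hq4 : q ≤ n + 1
    · exact M.dual.ex (RingHom.id _) M.C_top (j := n + 1 - q) (by omega) (hco _ (by omega))
    · exact ex_of_rank _ _ _ (M.Q_top q (by omega))
  have hC : ∀ q, Ex (toCx M.C M.C_d) (RingHom.id (MonoidAlgebra ℤ G)) (q + 1) := by
    intro q v hv
    exact (M.C.exact_succ q v).1 hv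
  have hN : ∀ q, Ex M.N (RingHom.id (MonoidAlgebra ℤ M.K)) (q + 1) := fun q =>
    ex_of_ind_int M.K M.N (q + 1)
      (ex_Ind M _ (q + 1) (ex_B M _ (q + 1) (hC q) (hQ (q + 2) (by omega))))
  have hRd : ∀ i, (resN M hN).d (i + 1) * (resN M hN).d i = 0 := M.N.d_d
  have hRN : ∀ i, ¬ Nontrivial ((resN M hN).homology i) := fun i =>
    (not_nontrivial_finRes (resN M hN) hRd (toCRed M.K) i).2 (N_exact M h i)
  rcases Nat.lt_or_ge n 3 with hn3 | hn3
  · obtain ⟨i, _, hi⟩ := final (resN M hN) (Or.inl fun i hi => M.N_top i (by omega))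
    exact hRN i hi
  · obtain rfl : n = 3 := le_antisymm hn hn3
    have htop : ∀ i, 3 < i → (resN M hN).rank i = 0 := M.N_top
    by_cases hK : ∃ g : M.K, ¬ IsOfFinOrder g
    · have hc : Nonempty ((resN M hN).cohomology M.K 3 ≃+ ℤ) :=
        coh3 (resN M hN) hRd (M.w.comp M.K.subtype) M.dualN (htop 4 (by norm_num))
      obtain ⟨i, _, hi⟩ := final (resN M hN) (Or.inr (Or.inr ⟨hK, hc⟩))
      exact hRN i hi
    · push Not at hK
      exact not_trivial (resN M hN) (fun g => torsion_free (resN M hN) 3 htop g (hK g)) hRN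

/-- Any dimension. -/
theorem any_dim {n : ℕ} (M : AsphericalPair G n) (h : ∃ q, Nontrivial (M.N.homology q)) :
    ∃ i, Nontrivial (M.C.homology i) := by
  by_contra hcon
  obtain ⟨q, hq⟩ := h
  exact (not_nontrivial_homologyWith M.N (toCRed M.K) q).2
    (N_exact M (fun i hi => hcon ⟨i, hi⟩) q) hq

end

end Z9f173dB
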