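import Pool.Agent.Lib.Z9f173dB.Base

/-!
# The induced complex, and complexes with a retraction or in a short exact sequence
-/

namespace Z9f173dB

noncomputable section

open Z9f173d
open scoped Matrix

variable {G : Type*} [Group G] {A : Type*} [Ring A]

/-- the induced complex `ℤ[G] ⊗_{ℤ[K]} N` -/
def Ind (K : Subgroup G) (N : Cx K) : Cx G where
  rank := N.rank
  d i := (N.d i).map (inclK K)
  d_d i := by rw [map_mul_map, N.d_d, map_zero']

end

end Z9f173dB
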