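import Pool.Agent.Lib.Z9f173dB.Bar
import Pool.Agent.Lib.P9f173dW.FinCon

/-!
# The cohomology with group ring coefficients vanishes in degrees at most two
-/

namespace Z9f173dB

noncomputable section

open Z9f173d
open scoped Matrix

variable {G : Type*} [Group G]

open Pool.Agent.Lib.P9f173dW in
theorem cols (R : FinRes G) (h0 : ¬ Nontrivial (R.homology 0)) (h1 : ¬ Nontrivial (R.homology 1))
    (h2 : ¬ Nontrivial (R.homology 2)) :
    (∀ f : Fin (R.rank 0) → MonoidAlgebra ℤ G, R.d 0 *ᵥ f = 0 → f = 0) ∧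
    (∀ f : Fin (R.rank 1) → MonoidAlgebra ℤ G, R.d 1 *ᵥ f = 0 → ∃ c, R.d 0 *ᵥ c = f) ∧
    (∀ f : Fin (R.rank 2) → MonoidAlgebra ℤ G, R.d 2 *ᵥ f = 0 → ∃ c, R.d 1 *ᵥ c = f) := by
  refine ⟨?_, ?_, ?_⟩
  · intro f hf
    have := deg0 ⊥ foelner_bot R h0 h1 h2 (fun b => P0 (f b)) (fun b => P0_IL _)
      (by rw [← P0_mulVec, hf]; ext1 a; simp)
    ext1 b
    apply P0_injective
    have h3 := congrFun this b
    rw [h3]
    simp
  · intro f hf
    refine mulVec_of_mact R 0 (fun f hf hfd => ?_) f hf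
    obtain ⟨c, hc, hcf⟩ := deg1 ⊥ foelner_bot R h0 h1 h2 f (fun b => IL_bot (hf b)) hfd
    exact ⟨c, fun i => finite_of_IL_bot (hc i), hcf⟩
  · intro f hf
    refine mulVec_of_mact R 1 (fun f hf hfd => ?_) f hf
    obtain ⟨c, hc, hcf⟩ := deg2 ⊥ foelner_bot R h0 h1 h2 f (fun b => IL_bot (hf b)) hfd
    exact ⟨c, fun i => finite_of_IL_bot (hc i), hcf⟩

theorem bar_eq_zero (w : G →* ℤˣ) {x : MonoidAlgebra ℤ G} (h : (bar w x).unop = 0) : x = 0 := by
  rw [← bar_bar w x, h, map_zero, MulOpposite.unop_zero]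

theorem mulVec_of_vecMul (w : G →* ℤˣ) {m n : ℕ} (M : Matrix (Fin m) (Fin n) (MonoidAlgebra ℤ G))
    (v : Fin n → MonoidAlgebra ℤ G) (h : v ᵥ* adj w M = 0) :
    (M *ᵥ fun b => (bar w (v b)).unop) = 0 := by
  rw [vecMul_adj] at h
  funext a
  exact bar_eq_zero w (congrFun h a)

theorem vecMul_of_mulVec (w : G →* ℤˣ) {m n : ℕ} (M : Matrix (Fin m) (Fin n) (MonoidAlgebra ℤ G))
    (v : Fin m → MonoidAlgebra ℤ G) (c : Fin n → MonoidAlgebra ℤ G)
    (h : M *ᵥ c = fun b => (bar w (v b)).unop) :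
    (fun b => (bar w (c b)).unop) ᵥ* adj w M = v := by
  rw [vecMul_adj]
  funext a
  have h1 : (fun b => (bar w (bar w (c b)).unop).unop) = c := funext fun b => bar_bar w (c b)
  rw [h1, h, bar_bar]

theorem map_id' {m n : ℕ} (M : Matrix (Fin m) (Fin n) (MonoidAlgebra ℤ G)) :
    M.map (RingHom.id (MonoidAlgebra ℤ G)) = M := rfl

/-- `H^j(G; ℤ[G]) = 0` for `j ≤ 2` if the reduced homology vanishes in degrees at most two. -/
theorem coEx_int (w : G →* ℤˣ) (R : FinRes G) (hd : ∀ i, R.d (i + 1) * R.d i = 0)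
    (h : ∀ i, ¬ Nontrivial (R.homology i)) (j : ℕ) (hj : j ≤ 2) :
    CoEx w (toCx R hd) (RingHom.id (MonoidAlgebra ℤ G)) j := by
  obtain ⟨c0, c1, c2⟩ := cols R (h 0) (h 1) (h 2)
  match j, hj with
  | 0, _ =>
      intro v hv
      have h1 := c0 _ (mulVec_of_vecMul w (R.d 0) v hv)
      funext b
      exact bar_eq_zero w (congrFun h1 b)
  | 1, _ =>
      intro v hv
      obtain ⟨c, hc⟩ := c1 _ (mulVec_of_vecMul w (R.d 1) v hv)
      exact ⟨_, vecMul_of_mulVec w (R.d 0) v c hc⟩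
  | 2, _ =>
      intro v hv
      obtain ⟨c, hc⟩ := c2 _ (mulVec_of_vecMul w (R.d 2) v hv)
      exact ⟨_, vecMul_of_mulVec w (R.d 1) v c hc⟩

end

end Z9f173dB
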